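import Mathlib
import Pool.Agent.H448R2.GC.X2

set_option autoImplicit false

/-!
# The Lipschitz constant of zeta on the critical line grows at most like a power
-/

namespace Pool.Agent.Y959.Hm

open MeasureTheory Set Filter Topology Complex

noncomputable section

/-- zeta in the strip `-1 ≤ Re s ≤ 3`, away from the real axis -/
theorem zeta_poly : ∃ C : ℝ, 1 ≤ C ∧ ∃ B : ℕ, ∀ w : ℂ, -1 ≤ w.re → w.re ≤ 3 → 1 ≤ |w.im| →
    ‖riemannZeta w‖ ≤ C * (1 + |w.im|) ^ B := by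
  obtain ⟨C, B, hC, h⟩ := Pool.Agent.H448R2.GC.zeta_one_growth 1
  refine ⟨max C 1, le_max_right _ _, B, fun w h1 h2 h3 => ?_⟩
  have h4 := h w h1 h2
  have hw : w ≠ 1 := by
    intro h5
    rw [h5] at h3
    norm_num at h3
  rw [Function.update_of_ne hw, norm_mul] at h4
  have h5 : 1 ≤ ‖w - 1‖ := by
    have h6 := Complex.abs_im_le_norm (w - 1)
    simp only [sub_im, one_im, sub_zero] at h6
    linarith
  have h6 : ‖riemannZeta w‖ ≤ ‖w - 1‖ * ‖riemannZeta w‖ :=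
    le_mul_of_one_le_left (norm_nonneg _) h5
  refine h6.trans (h4.trans ?_)
  gcongr
  exact le_max_left _ _

/-- the Lipschitz bound -/
theorem zeta_lip : ∃ C B : ℝ, 1 ≤ C ∧ 0 ≤ B ∧ ∀ T : ℝ, 3 ≤ T → ∀ u ∈ Icc (T - 1 / 2) T,
    ‖riemannZeta (1 / 2 + T * I)‖ - C * T ^ B * (T - u) ≤ ‖riemannZeta (1 / 2 + u * I)‖ := by
  obtain ⟨C, hC, B, h⟩ := zeta_poly
  refine ⟨4 * (C * 2 ^ B), B, ?_, by positivity, fun T hT u hu => ?_⟩
  · have : (1:ℝ) ≤ 2 ^ B := one_le_pow₀ (by norm_num)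
    nlinarith
  set c : ℂ := 1 / 2 + T * I with hc
  set w : ℂ := 1 / 2 + u * I with hw
  set s : Set ℂ := Metric.closedBall c (1 / 2) with hs
  have hcre : c.re = 1 / 2 := by rw [hc]; simp
  have hcim : c.im = T := by rw [hc]; simp
  have hball : ∀ x ∈ s, ∀ y : ℂ, ‖y - x‖ ≤ 1 / 4 → -1 ≤ y.re ∧ y.re ≤ 3 ∧ 1 ≤ |y.im| ∧
      1 + |y.im| ≤ 2 * T := by
    intro x hx y hy
    have h1 : ‖x - c‖ ≤ 1 / 2 := by rw [← dist_eq_norm]; exact hx
    have h2 : ‖y - c‖ ≤ 3 / 4 := by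
      calc ‖y - c‖ = ‖(y - x) + (x - c)‖ := by ring_nf
        _ ≤ ‖y - x‖ + ‖x - c‖ := norm_add_le _ _
        _ ≤ 3 / 4 := by linarith
    have h3 := (Complex.abs_re_le_norm (y - c)).trans h2
    have h4 := (Complex.abs_im_le_norm (y - c)).trans h2
    rw [sub_re, hcre, abs_le] at h3
    rw [sub_im, hcim, abs_le] at h4
    have h5 : 0 ≤ y.im := by linarith [h4.1]
    rw [abs_of_nonneg h5]
    exact ⟨by linarith [h3.1], by linarith [h3.2], by linarith [h4.1], by linarith [h4.2]⟩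
  have hval : ∀ x ∈ s, ∀ y : ℂ, ‖y - x‖ ≤ 1 / 4 → ‖riemannZeta y‖ ≤ C * (2 * T) ^ B := by
    intro x hx y hy
    obtain ⟨h1, h2, h3, h4⟩ := hball x hx y hy
    refine (h y h1 h2 h3).trans ?_
    gcongr
  have hne : ∀ x ∈ s, ∀ y : ℂ, ‖y - x‖ ≤ 1 / 4 → y ≠ 1 := by
    intro x hx y hy h1
    obtain ⟨_, _, h3, _⟩ := hball x hx y hy
    rw [h1] at h3
    norm_num at h3
  have hderiv : ∀ x ∈ s, ‖deriv riemannZeta x‖ ≤ 4 * (C * (2 * T) ^ B) := by
    intro x hx
    have h1 : DiffContOnCl ℂ riemannZeta (Metric.ball x (1 / 4)) := by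
      apply DifferentiableOn.diffContOnCl
      intro y hy
      have h2 : y ∈ Metric.closedBall x (1 / 4) := Metric.closure_ball_subset_closedBall hy
      have h3 : ‖y - x‖ ≤ 1 / 4 := by rw [← dist_eq_norm]; exact h2
      exact (differentiableAt_riemannZeta (hne x hx y h3)).differentiableWithinAt
    have h2 := Complex.norm_deriv_le_of_forall_mem_sphere_norm_le (by norm_num : (0:ℝ) < 1 / 4) h1
      (C := C * (2 * T) ^ B) (fun y hy => hval x hx y (by
        rw [← dist_eq_norm]; exact (Metric.mem_sphere.1 hy).le))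
    refine h2.trans (le_of_eq ?_)
    ring
  have hdiff : ∀ x ∈ s, DifferentiableAt ℂ riemannZeta x := by
    intro x hx
    exact differentiableAt_riemannZeta (hne x hx x (by simp))
  have hcs : c ∈ s := Metric.mem_closedBall_self (by norm_num)
  have hwc : w - c = ((u - T : ℝ) : ℂ) * I := by rw [hw, hc]; push_cast; ring
  have hnwc : ‖w - c‖ = T - u := by
    rw [hwc, norm_mul, Complex.norm_real, Complex.norm_I, mul_one, Real.norm_eq_abs, abs_sub_comm,
      abs_of_nonneg (by linarith [hu.2])]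
  have hws : w ∈ s := by
    rw [hs, Metric.mem_closedBall, dist_eq_norm, hnwc]
    linarith [hu.1]
  have hmain := Convex.norm_image_sub_le_of_norm_deriv_le hdiff hderiv
    (convex_closedBall c (1 / 2)) hcs hws
  rw [hnwc] at hmain
  have h9 : ‖riemannZeta c‖ - ‖riemannZeta w‖ ≤ ‖riemannZeta w - riemannZeta c‖ := by
    rw [norm_sub_rev]
    exact norm_sub_norm_le _ _
  have e1 : 4 * (C * (2 * T) ^ B) = 4 * (C * 2 ^ B) * T ^ (B : ℝ) := by
    rw [mul_pow, Real.rpow_natCast]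
    ring
  rw [e1] at hmain
  linarith

end

end Pool.Agent.Y959.Hm
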