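import Mathlib

set_option autoImplicit false

/-!
# A local form of the Phragmen-Lindelöf principle
-/

namespace Pool.Agent.Y959.Hm

open MeasureTheory Set Filter Topology Complex

noncomputable section

lemma one_add_rpow_le {v B : ℝ} (hv : 0 ≤ v) (hB : 0 ≤ B) :
    (1 + v) ^ B * Real.exp (-v ^ 2) ≤ Real.exp (B ^ 2 / 4) := by
  have h1 : (1 + v) ^ B ≤ Real.exp v ^ B :=
    Real.rpow_le_rpow (by linarith) (by linarith [Real.add_one_le_exp v]) hB
  rw [← Real.exp_mul] at h1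
  calc (1 + v) ^ B * Real.exp (-v ^ 2) ≤ Real.exp (v * B) * Real.exp (-v ^ 2) := by gcongr
    _ = Real.exp (v * B + -v ^ 2) := by rw [← Real.exp_add]
    _ ≤ Real.exp (B ^ 2 / 4) := by
      apply Real.exp_le_exp.2
      nlinarith [sq_nonneg (v - B / 2)]

lemma one_add_abs_le {T t : ℝ} (hT : 1 ≤ |T|) : 1 + |t| ≤ 2 * |T| * (1 + |t - T|) := by
  have h1 : |t| ≤ |t - T| + |T| := by
    calc |t| = |(t - T) + T| := by ring_nf
      _ ≤ |t - T| + |T| := abs_add_le _ _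
  have h2 := abs_nonneg (t - T)
  nlinarith

/-- the weight `exp ((s - iT)²)` -/
lemma norm_weight (s : ℂ) (T : ℝ) :
    ‖cexp ((s - T * I) ^ 2)‖ = Real.exp (s.re ^ 2 - (s.im - T) ^ 2) := by
  rw [Complex.norm_exp]
  congr 1
  simp [pow_two]

/-- bounds on the line `Re s = 1/2` propagate to the right -/
theorem pl_right {F : ℂ → ℂ} (hF : Differentiable ℂ F) {C1 C2 a B : ℝ} (hC1 : 0 ≤ C1) (hC2 : 0 ≤ C2)
    (ha : 0 ≤ a) (hB : 0 ≤ B)
    (h1 : ∀ s : ℂ, s.re = 1 / 2 → ‖F s‖ ≤ C1 * (1 + |s.im|) ^ a)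
    (h2 : ∀ s : ℂ, 1 / 2 ≤ s.re → s.re ≤ 2 → ‖F s‖ ≤ C2 * (1 + |s.im|) ^ B) :
    ∃ C3 : ℝ, 0 < C3 ∧ ∀ T : ℝ, 1 ≤ |T| → ∀ s : ℂ, 1 / 2 ≤ s.re → s.re ≤ 2 → |s.im - T| ≤ 1 →
      ‖F s‖ ≤ C3 * |T| ^ (a + B * (s.re - 1 / 2)) := by
  set K1 : ℝ := C1 * 2 ^ a * Real.exp (1 / 4 + a ^ 2 / 4) with hK1
  set K2 : ℝ := C2 * 2 ^ B * Real.exp (4 + B ^ 2 / 4) with hK2
  set K : ℝ := max (max K1 K2) 1 with hK
  have hKpos : 0 < K := lt_of_lt_of_le one_pos (le_max_right _ _)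
  refine ⟨K * Real.exp 1, by positivity, fun T hT s hs1 hs2 hs3 => ?_⟩
  have hT0 : 0 < |T| := by linarith
  set l : ℝ := Real.log |T| with hl
  have hl0 : 0 ≤ l := Real.log_nonneg hT
  set h : ℂ → ℂ := fun s => F s * cexp ((s - T * I) ^ 2) * cexp (-((B * l : ℝ) : ℂ) * (s - 1 / 2)) *
    ((Real.exp (-(a * l)) : ℝ) : ℂ) with hh
  have hnorm : ∀ s : ℂ, ‖h s‖ = ‖F s‖ * Real.exp (s.re ^ 2 - (s.im - T) ^ 2) *
      Real.exp (-(B * l) * (s.re - 1 / 2)) * Real.exp (-(a * l)) := by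
    intro s
    simp only [hh]
    rw [norm_mul, norm_mul, norm_mul, norm_weight, Complex.norm_exp, Complex.norm_real,
      Real.norm_eq_abs, abs_of_pos (Real.exp_pos _)]
    congr 3
    simp
  have hTa : ∀ y : ℝ, |T| ^ y = Real.exp (y * l) := by
    intro y
    rw [Real.rpow_def_of_pos hT0, mul_comm]
  have hgen : ∀ (s : ℂ) (C A : ℝ), 0 ≤ C → 0 ≤ A → ‖F s‖ ≤ C * (1 + |s.im|) ^ A →
      ‖F s‖ * Real.exp (-(s.im - T) ^ 2) ≤ C * 2 ^ A * Real.exp (A * l) * Real.exp (A ^ 2 / 4) := by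
    intro s C A hC hA hFs
    have h3 : (1 + |s.im|) ^ A ≤ 2 ^ A * |T| ^ A * (1 + |s.im - T|) ^ A := by
      rw [← Real.mul_rpow (by norm_num) (abs_nonneg T), ← Real.mul_rpow (by positivity) (by positivity)]
      exact Real.rpow_le_rpow (by positivity) (one_add_abs_le hT) hA
    have h4 := one_add_rpow_le (abs_nonneg (s.im - T)) hA
    rw [sq_abs] at h4
    calc ‖F s‖ * Real.exp (-(s.im - T) ^ 2)
        ≤ (C * (2 ^ A * |T| ^ A * (1 + |s.im - T|) ^ A)) * Real.exp (-(s.im - T) ^ 2) := by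
          gcongr
          exact hFs.trans (by gcongr)
      _ = C * 2 ^ A * |T| ^ A * ((1 + |s.im - T|) ^ A * Real.exp (-(s.im - T) ^ 2)) := by ring
      _ ≤ C * 2 ^ A * |T| ^ A * Real.exp (A ^ 2 / 4) := by gcongr
      _ = _ := by rw [hTa]
  have hsplit : ∀ s : ℂ, Real.exp (s.re ^ 2 - (s.im - T) ^ 2) =
      Real.exp (s.re ^ 2) * Real.exp (-(s.im - T) ^ 2) := by
    intro s
    rw [← Real.exp_add, sub_eq_add_neg]
  -- the left edge
  have hleft : ∀ s : ℂ, s.re = 1 / 2 → ‖h s‖ ≤ K := by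
    intro s hs
    rw [hnorm, hsplit, hs]
    have h3 := hgen s C1 a hC1 ha (h1 s hs)
    have e1 : Real.exp (-(B * l) * (1 / 2 - 1 / 2)) = 1 := by norm_num
    rw [e1, mul_one]
    calc ‖F s‖ * (Real.exp ((1 / 2) ^ 2) * Real.exp (-(s.im - T) ^ 2)) * Real.exp (-(a * l))
        = (‖F s‖ * Real.exp (-(s.im - T) ^ 2)) * Real.exp ((1 / 2) ^ 2) * Real.exp (-(a * l)) := by ring
      _ ≤ (C1 * 2 ^ a * Real.exp (a * l) * Real.exp (a ^ 2 / 4)) * Real.exp ((1 / 2) ^ 2) *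
          Real.exp (-(a * l)) := by gcongr
      _ = C1 * 2 ^ a * (Real.exp (a * l) * Real.exp (-(a * l))) *
          (Real.exp ((1 / 2) ^ 2) * Real.exp (a ^ 2 / 4)) := by ring
      _ = K1 := by
          rw [← Real.exp_add, ← Real.exp_add, hK1]
          norm_num
      _ ≤ K := (le_max_left _ _).trans (le_max_left _ _)
  -- anywhere in the strip
  have hany : ∀ s : ℂ, 1 / 2 ≤ s.re → s.re ≤ 2 → ‖h s‖ ≤ K2 * Real.exp (B * l) *
      Real.exp (-(B * l) * (s.re - 1 / 2)) := by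
    intro s h3 h4
    rw [hnorm, hsplit]
    have h5 := hgen s C2 B hC2 hB (h2 s h3 h4)
    have h6 : Real.exp (s.re ^ 2) ≤ Real.exp 4 := by
      apply Real.exp_le_exp.2
      nlinarith
    have h7 : Real.exp (-(a * l)) ≤ 1 := by
      rw [Real.exp_le_one_iff]
      have : 0 ≤ a * l := by positivity
      linarith
    calc ‖F s‖ * (Real.exp (s.re ^ 2) * Real.exp (-(s.im - T) ^ 2)) *
          Real.exp (-(B * l) * (s.re - 1 / 2)) * Real.exp (-(a * l))
        = (‖F s‖ * Real.exp (-(s.im - T) ^ 2)) * Real.exp (s.re ^ 2) *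
          Real.exp (-(B * l) * (s.re - 1 / 2)) * Real.exp (-(a * l)) := by ring
      _ ≤ (C2 * 2 ^ B * Real.exp (B * l) * Real.exp (B ^ 2 / 4)) * Real.exp 4 *
          Real.exp (-(B * l) * (s.re - 1 / 2)) * 1 := by gcongr
      _ = C2 * 2 ^ B * (Real.exp 4 * Real.exp (B ^ 2 / 4)) * Real.exp (B * l) *
          Real.exp (-(B * l) * (s.re - 1 / 2)) := by ring
      _ = _ := by rw [← Real.exp_add, hK2]
  have hright : ∀ s : ℂ, s.re = 2 → ‖h s‖ ≤ K := by
    intro s hs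
    refine (hany s (by linarith) hs.le).trans ?_
    rw [hs, mul_assoc, ← Real.exp_add]
    have h3 : Real.exp (B * l + -(B * l) * (2 - 1 / 2)) ≤ 1 := by
      rw [Real.exp_le_one_iff]
      have : 0 ≤ B * l := by positivity
      linarith
    have hK20 : 0 ≤ K2 := by positivity
    calc K2 * Real.exp (B * l + -(B * l) * (2 - 1 / 2)) ≤ K2 * 1 := by gcongr
      _ ≤ K := by rw [mul_one]; exact (le_max_right _ _).trans (le_max_left _ _)
  have hhd : Differentiable ℂ h := by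
    simp only [hh]
    exact ((hF.mul (by fun_prop)).mul (by fun_prop)).mul_const _
  have hbd : ∃ c < Real.pi / (2 - 1 / 2 : ℝ), ∃ B' : ℝ,
      h =O[comap (_root_.abs ∘ Complex.im) atTop ⊓ 𝓟 (Complex.re ⁻¹' Ioo (1 / 2) 2)]
        fun z => Real.exp (B' * Real.exp (c * |z.im|)) := by
    refine ⟨0, by positivity, 0, ?_⟩
    apply Asymptotics.IsBigO.of_bound (K2 * Real.exp (B * l))
    rw [eventually_inf_principal]
    apply Eventually.of_forall
    intro z hz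
    have h3 := hany z hz.1.le hz.2.le
    refine h3.trans ?_
    have h4 : Real.exp (-(B * l) * (z.re - 1 / 2)) ≤ 1 := by
      rw [Real.exp_le_one_iff]
      have h5 : 0 ≤ B * l := by positivity
      have h6 : 0 ≤ z.re - 1 / 2 := by linarith [hz.1]
      nlinarith
    have hK20 : 0 ≤ K2 := by positivity
    simp only [zero_mul, Real.exp_zero, norm_one, mul_one]
    calc K2 * Real.exp (B * l) * Real.exp (-(B * l) * (z.re - 1 / 2))
        ≤ K2 * Real.exp (B * l) * 1 := by gcongr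
      _ = _ := by ring
  have hfin : ‖h s‖ ≤ K := PhragmenLindelof.vertical_strip hhd.diffContOnCl hbd hleft hright hs1 hs2
  rw [hnorm] at hfin
  -- unfold
  have e1 : |T| ^ (a + B * (s.re - 1 / 2)) = Real.exp (a * l) * Real.exp (B * l * (s.re - 1 / 2)) := by
    rw [hTa, ← Real.exp_add]
    congr 1
    ring
  have h3 : Real.exp (-1) ≤ Real.exp (s.re ^ 2 - (s.im - T) ^ 2) := by
    apply Real.exp_le_exp.2
    have h4 : (s.im - T) ^ 2 ≤ 1 := by
      rw [← sq_abs]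
      have := abs_nonneg (s.im - T)
      nlinarith
    nlinarith [sq_nonneg s.re]
  have h5 : ‖F s‖ * Real.exp (-1) * Real.exp (-(B * l) * (s.re - 1 / 2)) * Real.exp (-(a * l)) ≤ K := by
    refine le_trans ?_ hfin
    gcongr
  have h6 : ‖F s‖ = (‖F s‖ * Real.exp (-1) * Real.exp (-(B * l) * (s.re - 1 / 2)) *
      Real.exp (-(a * l))) * (Real.exp 1 * (Real.exp (a * l) * Real.exp (B * l * (s.re - 1 / 2)))) := by
    have e2 : Real.exp (-1) * Real.exp 1 = 1 := by rw [← Real.exp_add]; norm_num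
    have e3 : Real.exp (-(a * l)) * Real.exp (a * l) = 1 := by rw [← Real.exp_add]; norm_num
    have e4 : Real.exp (-(B * l) * (s.re - 1 / 2)) * Real.exp (B * l * (s.re - 1 / 2)) = 1 := by
      rw [← Real.exp_add]
      have : -(B * l) * (s.re - 1 / 2) + B * l * (s.re - 1 / 2) = 0 := by ring
      rw [this, Real.exp_zero]
    calc ‖F s‖ = ‖F s‖ * (Real.exp (-1) * Real.exp 1) * (Real.exp (-(a * l)) * Real.exp (a * l)) *
          (Real.exp (-(B * l) * (s.re - 1 / 2)) * Real.exp (B * l * (s.re - 1 / 2))) := by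
          rw [e2, e3, e4]; ring
      _ = _ := by ring
  rw [h6, e1]
  calc _ ≤ K * (Real.exp 1 * (Real.exp (a * l) * Real.exp (B * l * (s.re - 1 / 2)))) := by gcongr
    _ = _ := by ring

end

end Pool.Agent.Y959.Hm
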