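import Mathlib
import Pool.Agent.H448R2.GC.X2
import Pool.Agent.Y959.Hm.PL

set_option autoImplicit false

/-!
# Under the Lindelöf bound the Lipschitz constant of zeta on the critical line is `T ^ ε`
-/

namespace Pool.Agent.Y959.Hm

open MeasureTheory Set Filter Topology Complex

noncomputable section

/-- the entire function `(s - 1) ζ(s)` -/
def FZ : ℂ → ℂ := Function.update (fun w : ℂ => (w - 1) * riemannZeta w) 1 1

theorem FZ_diff : Differentiable ℂ FZ := Pool.Agent.H448R2.GC.zeta_one_entire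

theorem FZ_eq {s : ℂ} (hs : s ≠ 1) : FZ s = (s - 1) * riemannZeta s := by
  unfold FZ
  rw [Function.update_of_ne hs]

theorem zeta_half_cont : Continuous fun t : ℝ => ‖riemannZeta (1 / 2 + t * I)‖ := by
  rw [continuous_iff_continuousAt]
  intro t
  have hne : (1 / 2 + (t : ℂ) * I) ≠ 1 := by
    intro h
    have := congrArg Complex.re h
    norm_num at this
  have h1 : ContinuousAt riemannZeta (1 / 2 + (t : ℂ) * I) :=
    (differentiableAt_riemannZeta hne).continuousAt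
  have h2 : ContinuousAt (fun t : ℝ => (1 / 2 + (t : ℂ) * I : ℂ)) t := by fun_prop
  exact (ContinuousAt.comp (g := riemannZeta) (f := fun t : ℝ => (1 / 2 + (t : ℂ) * I : ℂ)) h1 h2).norm

/-- an eventual bound on the critical line bounds `FZ` on the whole line -/
theorem FZ_half {η T0 : ℝ} (hη : 0 ≤ η) (h : ∀ t : ℝ, T0 ≤ t → ‖riemannZeta (1 / 2 + t * I)‖ ≤ t ^ η) :
    ∃ C1 : ℝ, 0 ≤ C1 ∧ ∀ s : ℂ, s.re = 1 / 2 → ‖FZ s‖ ≤ C1 * (1 + |s.im|) ^ (1 + η) := by
  set T1 : ℝ := max T0 1 with hT1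
  obtain ⟨D, hD⟩ := (isCompact_Icc (a := (0:ℝ)) (b := T1)).exists_bound_of_continuousOn
    zeta_half_cont.continuousOn
  refine ⟨max D 1, by positivity, fun s hs => ?_⟩
  have hs1 : s ≠ 1 := by
    intro h5
    rw [h5] at hs
    norm_num at hs
  have hsI : s = 1 / 2 + (s.im : ℂ) * I := by
    apply Complex.ext
    · simp [hs]
    · simp
  have h1 : ‖riemannZeta s‖ = ‖riemannZeta (1 / 2 + (|s.im| : ℝ) * I)‖ := by
    rcases abs_cases s.im with h2 | h2
    · rw [h2.1, ← hsI]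
    · rw [h2.1]
      have e : (1 / 2 + ((-s.im : ℝ) : ℂ) * I) = (starRingEnd ℂ) s := by
        apply Complex.ext
        · simp [hs]
        · simp
      rw [e, riemannZeta_conj, norm_conj]
  have hp : 1 ≤ (1 + |s.im|) ^ η := Real.one_le_rpow (by linarith [abs_nonneg s.im]) hη
  have h2 : ‖riemannZeta s‖ ≤ max D 1 * (1 + |s.im|) ^ η := by
    rw [h1]
    rcases le_total |s.im| T1 with h3 | h3
    · have h4 := hD |s.im| ⟨abs_nonneg _, h3⟩
      rw [norm_norm] at h4
      calc _ ≤ D := h4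
        _ ≤ max D 1 := le_max_left _ _
        _ ≤ _ := le_mul_of_one_le_right (by positivity) hp
    · have h4 := h |s.im| ((le_max_left _ _).trans h3)
      calc _ ≤ |s.im| ^ η := h4
        _ ≤ (1 + |s.im|) ^ η := Real.rpow_le_rpow (abs_nonneg _) (by linarith) hη
        _ ≤ _ := le_mul_of_one_le_left (by positivity) (le_max_right _ _)
  have h3 : ‖s - 1‖ ≤ 1 + |s.im| := by
    refine (Complex.norm_le_abs_re_add_abs_im _).trans ?_
    rw [sub_re, sub_im, hs, one_re, one_im, sub_zero]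
    have : |(1 / 2 : ℝ) - 1| ≤ 1 := by rw [abs_le]; constructor <;> norm_num
    linarith
  rw [FZ_eq hs1, norm_mul, Real.rpow_add (by linarith [abs_nonneg s.im]), Real.rpow_one]
  calc ‖s - 1‖ * ‖riemannZeta s‖ ≤ (1 + |s.im|) * (max D 1 * (1 + |s.im|) ^ η) := by gcongr
    _ = _ := by ring

/-- bounds near the critical line -/
theorem FZ_near {η T0 : ℝ} (hη : 0 ≤ η) (h : ∀ t : ℝ, T0 ≤ t → ‖riemannZeta (1 / 2 + t * I)‖ ≤ t ^ η) :
    ∃ C3 B : ℝ, 0 < C3 ∧ 0 ≤ B ∧ ∀ T : ℝ, 1 ≤ T → ∀ s : ℂ, -1 ≤ s.re → s.re ≤ 2 → |s.im - T| ≤ 1 →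
      ‖FZ s‖ ≤ C3 * T ^ (1 + η + B * |s.re - 1 / 2|) := by
  obtain ⟨C1, hC1, h1⟩ := FZ_half hη h
  obtain ⟨C2, B, hC2, h2⟩ := Pool.Agent.H448R2.GC.zeta_one_growth 1
  have h2' : ∀ w : ℂ, -1 ≤ w.re → w.re ≤ 3 → ‖FZ w‖ ≤ C2 * (1 + |w.im|) ^ (B : ℝ) := by
    intro w h3 h4
    rw [Real.rpow_natCast]
    exact h2 w h3 h4
  obtain ⟨K1, hK1, g1⟩ := pl_right FZ_diff hC1 hC2.le (by linarith : 0 ≤ 1 + η)
    (Nat.cast_nonneg B) h1 (fun s h3 h4 => h2' s (by linarith) (by linarith))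
  have hG : Differentiable ℂ fun s : ℂ => FZ (1 - s) := FZ_diff.comp (by fun_prop)
  obtain ⟨K2, hK2, g2⟩ := pl_right (F := fun s : ℂ => FZ (1 - s)) hG hC1 hC2.le
    (by linarith : 0 ≤ 1 + η) (Nat.cast_nonneg B)
    (fun s hs => by
      have := h1 (1 - s) (by rw [sub_re, one_re, hs]; norm_num)
      rw [sub_im, one_im, zero_sub, abs_neg] at this
      exact this)
    (fun s h3 h4 => by
      have := h2' (1 - s) (by rw [sub_re, one_re]; linarith) (by rw [sub_re, one_re]; linarith)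
      rw [sub_im, one_im, zero_sub, abs_neg] at this
      exact this)
  refine ⟨max K1 K2, B, by positivity, Nat.cast_nonneg B, fun T hT s hs1 hs2 hs3 => ?_⟩
  have hT0 : 0 < T := by linarith
  rcases le_total (1 / 2) s.re with h3 | h3
  · have h4 := g1 T (by rwa [abs_of_pos hT0]) s h3 hs2 hs3
    rw [abs_of_pos hT0] at h4
    rw [abs_of_nonneg (by linarith)]
    refine h4.trans ?_
    gcongr
    exact le_max_left _ _
  · have h4 := g2 (-T) (by rw [abs_neg, abs_of_pos hT0]; exact hT) (1 - s)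
      (by rw [sub_re, one_re]; linarith) (by rw [sub_re, one_re]; linarith)
      (by
        rw [sub_im, one_im, zero_sub]
        have : -s.im - -T = -(s.im - T) := by ring
        rw [this, abs_neg]
        exact hs3)
    simp only [sub_sub_cancel, sub_re, one_re, abs_neg] at h4
    rw [abs_of_pos hT0] at h4
    rw [abs_of_nonpos (by linarith)]
    have e : 1 - s.re - 1 / 2 = -(s.re - 1 / 2) := by ring
    rw [e] at h4
    refine h4.trans ?_
    gcongr
    exact le_max_right _ _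

/-- **the Lipschitz constant under the Lindelöf bound** -/
theorem lip_small (h : ∀ ε : ℝ, 0 < ε → ∃ T0 : ℝ, ∀ t : ℝ, T0 ≤ t →
      ‖riemannZeta (1 / 2 + t * I)‖ ≤ t ^ ε) {ε : ℝ} (hε : 0 < ε) :
    ∃ T0 : ℝ, ∀ T : ℝ, T0 ≤ T → ∀ u ∈ Icc (T - 1 / 2) T,
      ‖riemannZeta (1 / 2 + T * I)‖ - T ^ ε * (T - u) ≤ ‖riemannZeta (1 / 2 + u * I)‖ := by
  obtain ⟨T1, hT1⟩ := h (ε / 4) (by positivity)
  obtain ⟨C3, B, hC3, hB, h3⟩ := FZ_near (by positivity : 0 ≤ ε / 4) hT1
  set r : ℝ := min (1 / 4) (ε / (4 * (B + 1))) with hr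
  have hr0 : 0 < r := lt_min (by norm_num) (by positivity)
  have hr1 : r ≤ 1 / 4 := min_le_left _ _
  have hr2 : B * r ≤ ε / 4 := by
    have h4 : r ≤ ε / (4 * (B + 1)) := min_le_right _ _
    rw [le_div_iff₀ (by positivity)] at h4
    nlinarith
  have hev : ∀ᶠ T : ℝ in atTop, 4 * C3 / r ≤ T ^ (ε / 2) :=
    (tendsto_rpow_atTop (by positivity)).eventually_ge_atTop _
  obtain ⟨T2, hT2⟩ := eventually_atTop.1 hev
  refine ⟨max T2 4, fun T hT u hu => ?_⟩
  have hTT2 := hT2 T ((le_max_left _ _).trans hT)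
  have hT4 : 4 ≤ T := (le_max_right _ _).trans hT
  have hT0 : 0 < T := by linarith
  -- zeta near the segment
  have hz : ∀ v ∈ Icc (T - 1 / 2) T, ∀ y : ℂ, ‖y - (1 / 2 + v * I)‖ ≤ r →
      y ≠ 1 ∧ ‖riemannZeta y‖ ≤ 4 * C3 * T ^ (ε / 2) := by
    intro v hv y hy
    have h4 := (Complex.abs_re_le_norm (y - (1 / 2 + v * I))).trans hy
    have h5 := (Complex.abs_im_le_norm (y - (1 / 2 + v * I))).trans hy
    simp only [sub_re, add_re, mul_re, ofReal_re, I_re, mul_zero, ofReal_im, I_im, mul_one, sub_self,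
      add_zero, sub_im, add_im, mul_im, zero_add, one_div] at h4 h5
    have e1 : ((2:ℂ)⁻¹).re = 1 / 2 := by norm_num
    have e2 : ((2:ℂ)⁻¹).im = 0 := by norm_num
    rw [e1] at h4
    rw [e2, zero_add] at h5
    have h6 := abs_le.1 h4
    have h7 := abs_le.1 h5
    have hyim : T - 1 ≤ y.im := by linarith [h7.1, hv.1]
    have hyim2 : y.im ≤ T + 1 := by linarith [h7.2, hv.2]
    have hy1 : y ≠ 1 := by
      intro h8
      rw [h8] at hyim
      simp only [one_im] at hyim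
      linarith
    refine ⟨hy1, ?_⟩
    have h8 := h3 T (by linarith) y (by linarith [h6.1]) (by linarith [h6.2])
      (by rw [abs_le]; constructor <;> linarith)
    have h9 : T ^ (1 + ε / 4 + B * |y.re - 1 / 2|) ≤ T * T ^ (ε / 2) := by
      have : T * T ^ (ε / 2) = T ^ (1 + ε / 2) := by
        rw [Real.rpow_add hT0, Real.rpow_one]
      rw [this]
      apply Real.rpow_le_rpow_of_exponent_le (by linarith)
      have : B * |y.re - 1 / 2| ≤ B * r := by gcongr
      linarith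
    rw [FZ_eq hy1, norm_mul] at h8
    have h10 : T / 4 ≤ ‖y - 1‖ := by
      have h11 := Complex.abs_im_le_norm (y - 1)
      rw [sub_im, one_im, sub_zero, abs_of_nonneg (by linarith)] at h11
      linarith
    have h11 : T / 4 * ‖riemannZeta y‖ ≤ C3 * (T * T ^ (ε / 2)) :=
      (mul_le_mul_of_nonneg_right h10 (norm_nonneg _)).trans (h8.trans (by gcongr))
    have h12 : T / 4 * ‖riemannZeta y‖ ≤ T / 4 * (4 * C3 * T ^ (ε / 2)) := by
      refine h11.trans (le_of_eq ?_)
      ring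
    exact le_of_mul_le_mul_left h12 (by positivity)
  have hderiv : ∀ v ∈ Icc (T - 1 / 2) T, ‖deriv riemannZeta (1 / 2 + v * I)‖ ≤ T ^ ε := by
    intro v hv
    have h4 : DiffContOnCl ℂ riemannZeta (Metric.ball (1 / 2 + v * I) r) := by
      apply DifferentiableOn.diffContOnCl
      intro y hy
      have h2 : y ∈ Metric.closedBall (1 / 2 + v * I) r := Metric.closure_ball_subset_closedBall hy
      have h3 : ‖y - (1 / 2 + v * I)‖ ≤ r := by rw [← dist_eq_norm]; exact h2
      exact (differentiableAt_riemannZeta (hz v hv y h3).1).differentiableWithinAt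
    have h5 := Complex.norm_deriv_le_of_forall_mem_sphere_norm_le hr0 h4
      (C := 4 * C3 * T ^ (ε / 2)) (fun y hy => (hz v hv y (by
        rw [← dist_eq_norm]; exact (Metric.mem_sphere.1 hy).le)).2)
    refine h5.trans ?_
    have e : T ^ ε = T ^ (ε / 2) * T ^ (ε / 2) := by
      rw [← Real.rpow_add hT0]; congr 1; ring
    rw [e]
    calc 4 * C3 * T ^ (ε / 2) / r = 4 * C3 / r * T ^ (ε / 2) := by ring
      _ ≤ T ^ (ε / 2) * T ^ (ε / 2) := by gcongr
  have hd : ∀ v ∈ Icc (T - 1 / 2) T, HasDerivWithinAt (fun v : ℝ => riemannZeta (1 / 2 + v * I))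
      (deriv riemannZeta (1 / 2 + v * I) * I) (Icc (T - 1 / 2) T) v := by
    intro v hv
    have h4 : HasDerivAt riemannZeta (deriv riemannZeta (1 / 2 + v * I)) (1 / 2 + v * I) :=
      (differentiableAt_riemannZeta (hz v hv _ (by simp [hr0.le])).1).hasDerivAt
    have h5 : HasDerivAt (fun v : ℝ => (1 / 2 + v * I : ℂ)) I v := by
      have h6 : HasDerivAt (fun v : ℝ => (v : ℂ)) 1 v := Complex.ofRealCLM.hasDerivAt
      have h7 := (h6.mul_const I).const_add (1 / 2 : ℂ)
      simpa using h7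
    exact (h4.comp v h5).hasDerivWithinAt
  have hmain := Convex.norm_image_sub_le_of_norm_hasDerivWithin_le (C := T ^ ε) hd
    (fun v hv => by rw [norm_mul, Complex.norm_I, mul_one]; exact hderiv v hv)
    (convex_Icc _ _) hu (⟨by linarith, le_rfl⟩ : T ∈ Icc (T - 1 / 2) T)
  rw [Real.norm_eq_abs, abs_of_nonneg (by linarith [hu.2])] at hmain
  have h9 := norm_sub_norm_le (riemannZeta (1 / 2 + T * I)) (riemannZeta (1 / 2 + u * I))
  linarith

end

end Pool.Agent.Y959.Hm
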