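import Mathlib

set_option autoImplicit false

/-!
# Large orders: from moments to bounds on the critical line
-/

namespace Pool.Agent.Y959.Hm

open MeasureTheory Set Filter Topology

noncomputable section

/-- a lower bound for the moment from one large value -/
theorem moment_lower {z : ℝ → ℝ} (hz : Continuous z) (hz0 : ∀ t, 0 ≤ z t) {T L k : ℝ}
    (hk : 0 ≤ k) (hL : 1 ≤ L) (hT : 1 ≤ T) (h1 : 1 ≤ z T)
    (hlip : ∀ u ∈ Icc (T - 1 / 2) T, z T - L * (T - u) ≤ z u) :
    1 / (2 * L) * (z T / 2) ^ (2 * k) ≤ ∫ t in (0:ℝ)..T, z t ^ (2 * k) := by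
  have hL0 : 0 < L := by linarith
  set δ : ℝ := 1 / (2 * L) with hδ
  have hδ0 : 0 < δ := by positivity
  have hδ1 : δ ≤ 1 / 2 := by
    rw [hδ]
    apply one_div_le_one_div_of_le (by norm_num)
    linarith
  have hck : Continuous fun t => z t ^ (2 * k) :=
    hz.rpow_const (fun t => Or.inr (by linarith))
  have hz2 : ∀ u ∈ Icc (T - δ) T, z T / 2 ≤ z u := by
    intro u hu
    have h2 := hlip u ⟨by linarith [hu.1], hu.2⟩
    have h3 : L * (T - u) ≤ L * δ := by
      have := hu.1
      gcongr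
      linarith
    have h4 : L * δ = 1 / 2 := by rw [hδ]; field_simp
    linarith
  have e1 : ∫ t in (0:ℝ)..T, z t ^ (2 * k) =
      (∫ t in (0:ℝ)..(T - δ), z t ^ (2 * k)) + ∫ t in (T - δ)..T, z t ^ (2 * k) :=
    (intervalIntegral.integral_add_adjacent_intervals (hck.intervalIntegrable _ _)
      (hck.intervalIntegrable _ _)).symm
  have e2 : 0 ≤ ∫ t in (0:ℝ)..(T - δ), z t ^ (2 * k) := by
    apply intervalIntegral.integral_nonneg (by linarith)
    intro t _
    exact Real.rpow_nonneg (hz0 t) _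
  have e3 : ∫ t in (T - δ)..T, (z T / 2) ^ (2 * k) ≤ ∫ t in (T - δ)..T, z t ^ (2 * k) := by
    apply intervalIntegral.integral_mono_on (by linarith)
    · exact continuous_const.intervalIntegrable _ _
    · exact hck.intervalIntegrable _ _
    · intro t ht
      exact Real.rpow_le_rpow (by linarith) (hz2 t ht) (by linarith)
  rw [intervalIntegral.integral_const, smul_eq_mul] at e3
  have e4 : T - (T - δ) = δ := by ring
  rw [e4] at e3
  linarith

/-- `log log t` is small against `log t` -/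
theorem loglog_small (A B η : ℝ) (hη : 0 < η) :
    ∃ T0 : ℝ, ∀ t : ℝ, T0 ≤ t → A + B * Real.log (Real.log t) ≤ η * Real.log t := by
  have h1 : (fun x : ℝ => A + B * Real.log x) =o[atTop] (fun x : ℝ => x) := by
    apply Asymptotics.IsLittleO.add
    · exact (Asymptotics.isLittleO_const_id_atTop A)
    · exact Real.isLittleO_log_id_atTop.const_mul_left B
  have h2 := h1.def hη
  have h3 : ∀ᶠ t : ℝ in atTop, ‖A + B * Real.log (Real.log t)‖ ≤ η * ‖Real.log t‖ :=
    Real.tendsto_log_atTop.eventually h2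
  have h4 : ∀ᶠ t : ℝ in atTop, 0 ≤ Real.log t :=
    Real.tendsto_log_atTop.eventually_ge_atTop 0
  obtain ⟨T0, hT0⟩ := eventually_atTop.1 (h3.and h4)
  refine ⟨T0, fun t ht => ?_⟩
  obtain ⟨h5, h6⟩ := hT0 t ht
  rw [Real.norm_eq_abs, Real.norm_eq_abs, abs_of_nonneg h6] at h5
  exact (le_abs_self _).trans h5

/-- **the converse**: the moments of order `κ' log T / log log T`, `κ' > κ`, give the exponent
`κ / 2` -/
theorem growth_of_moments {z : ℝ → ℝ} (hz : Continuous z) (hz0 : ∀ t, 0 ≤ z t) {C B : ℝ}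
    (hC : 1 ≤ C) (hB : 0 ≤ B)
    (hlip : ∀ T : ℝ, 3 ≤ T → ∀ u ∈ Icc (T - 1 / 2) T, z T - C * T ^ B * (T - u) ≤ z u)
    {κ : ℝ} (hκ : 0 ≤ κ)
    (h : ∀ κ' : ℝ, κ < κ' → ∃ T0 : ℝ, ∀ T : ℝ, T0 ≤ T →
      ∫ t in (0:ℝ)..T, z t ^ (2 * (κ' * Real.log T / Real.log (Real.log T))) ≤
        T * Real.log T ^ ((κ' * Real.log T / Real.log (Real.log T)) ^ 2)) :
    ∀ ε : ℝ, 0 < ε → ∃ T0 : ℝ, ∀ t : ℝ, T0 ≤ t → z t ≤ t ^ (κ / 2 + ε) := by
  intro ε hε
  set κ' : ℝ := κ + ε with hκ'
  have hκ0 : 0 < κ' := by linarith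
  obtain ⟨T0, hT0⟩ := h κ' (by linarith)
  set D : ℝ := (Real.log (2 * C) + B + 1) / (2 * κ') with hD
  obtain ⟨T1, hT1⟩ := loglog_small (Real.log 2) D (ε / 2) (by positivity)
  refine ⟨max (max T0 T1) (Real.exp (Real.exp 1)), fun t ht => ?_⟩
  have ht0 : T0 ≤ t := (le_max_left _ _).trans ((le_max_left _ _).trans ht)
  have ht1 : T1 ≤ t := (le_max_right _ _).trans ((le_max_left _ _).trans ht)
  have hte : Real.exp (Real.exp 1) ≤ t := (le_max_right _ _).trans ht
  have htpos : 0 < t := lt_of_lt_of_le (Real.exp_pos _) hte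
  have hl : Real.exp 1 ≤ Real.log t := (Real.le_log_iff_exp_le htpos).2 hte
  have hl1 : 1 < Real.log t := lt_of_lt_of_le (by have := Real.exp_one_gt_d9; linarith) hl
  have hll : 1 ≤ Real.log (Real.log t) := (Real.le_log_iff_exp_le (by linarith)).2 hl
  have ht3 : 3 ≤ t := by
    have h1 := Real.add_one_le_exp (Real.exp 1)
    have h2 := Real.exp_one_gt_d9
    linarith
  by_cases hz1 : z t < 1
  · refine hz1.le.trans ?_
    exact Real.one_le_rpow (by linarith) (by positivity)
  rw [not_lt] at hz1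
  set l := Real.log t with hlt
  set m := Real.log l with hm
  set k : ℝ := κ' * l / m with hk
  have hk0 : 0 < k := by positivity
  have hL1 : 1 ≤ C * t ^ B := by
    have : 1 ≤ t ^ B := Real.one_le_rpow (by linarith) hB
    nlinarith
  have h2 := moment_lower hz hz0 hk0.le hL1 (by linarith) hz1 (hlip t ht3)
  have h3 := h2.trans (hT0 t ht0)
  -- take logarithms
  have hzp : 0 < z t := by linarith
  have h4 : Real.log (1 / (2 * (C * t ^ B)) * (z t / 2) ^ (2 * k)) ≤ Real.log (t * l ^ (k ^ 2)) :=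
    Real.log_le_log (by positivity) h3
  have hC0 : 0 < C := by linarith
  have hlC : 0 ≤ Real.log (2 * C) := Real.log_nonneg (by linarith)
  have e1 : Real.log (1 / (2 * (C * t ^ B)) * (z t / 2) ^ (2 * k)) =
      -(Real.log (2 * C) + B * l) + 2 * k * (Real.log (z t) - Real.log 2) := by
    rw [Real.log_mul (by positivity) (by positivity), Real.log_rpow (by positivity),
      Real.log_div hzp.ne' (by norm_num), one_div, Real.log_inv]
    rw [show 2 * (C * t ^ B) = (2 * C) * t ^ B by ring, Real.log_mul (by positivity) (by positivity),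
      Real.log_rpow htpos]
  have e2 : Real.log (t * l ^ (k ^ 2)) = l + k ^ 2 * m := by
    rw [Real.log_mul htpos.ne' (by positivity), Real.log_rpow (by linarith)]
  rw [e1, e2] at h4
  have h5 : k * m = κ' * l := by rw [hk]; field_simp
  have h6 : k ^ 2 * m = k * (κ' * l) := by rw [← h5]; ring
  have h7 : 2 * k * (Real.log (z t) - Real.log 2) ≤ (Real.log (2 * C) + B + 1) * l + k * (κ' * l) := by
    have : Real.log (2 * C) ≤ Real.log (2 * C) * l := le_mul_of_one_le_right hlC hl1.le
    nlinarith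
  have h8 : Real.log (z t) - Real.log 2 ≤ D * m + κ' / 2 * l := by
    have h9 : (Real.log (2 * C) + B + 1) * l = 2 * k * (D * m) := by
      have : 2 * k * (D * m) = 2 * D * (k * m) := by ring
      rw [this, h5, hD]
      field_simp
    rw [h9] at h7
    have h10 : 2 * k * (Real.log (z t) - Real.log 2) ≤ 2 * k * (D * m + κ' / 2 * l) := by
      refine h7.trans (le_of_eq ?_)
      ring
    exact le_of_mul_le_mul_left h10 (by positivity)
  have h11 := hT1 t ht1
  have h12 : Real.log (z t) ≤ (κ / 2 + ε) * l := by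
    have : κ' / 2 * l = (κ / 2 + ε / 2) * l := by rw [hκ']; ring
    rw [this] at h8
    linarith
  have h13 : z t = Real.exp (Real.log (z t)) := (Real.exp_log hzp).symm
  rw [h13, Real.rpow_def_of_pos htpos]
  apply Real.exp_le_exp.2
  linarith

end

end Pool.Agent.Y959.Hm
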