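import Mathlib

set_option autoImplicit false

/-!
# Large orders: from bounds on the critical line to moments
-/

namespace Pool.Agent.Y959.Hm

open MeasureTheory Set Filter Topology

noncomputable section

/-- a pointwise bound gives a bound for the moment -/
theorem moment_sup {z : ℝ → ℝ} (hz : Continuous z) (hz0 : ∀ t, 0 ≤ z t) {T W k : ℝ} (hT : 0 ≤ T)
    (hk : 0 ≤ k) (hW : ∀ t ∈ Icc (0:ℝ) T, z t ≤ W) :
    ∫ t in (0:ℝ)..T, z t ^ (2 * k) ≤ T * W ^ (2 * k) := by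
  have h1 : ∫ t in (0:ℝ)..T, z t ^ (2 * k) ≤ ∫ t in (0:ℝ)..T, W ^ (2 * k) := by
    apply intervalIntegral.integral_mono_on hT
    · exact (hz.rpow_const (fun t => Or.inr (by linarith))).intervalIntegrable _ _
    · exact continuous_const.intervalIntegrable _ _
    · intro t ht
      exact Real.rpow_le_rpow (hz0 t) (hW t ht) (by linarith)
  rw [intervalIntegral.integral_const, smul_eq_mul, sub_zero] at h1
  exact h1

/-- an eventual bound `z t ≤ t ^ e` gives `z ≤ T ^ e` on `[0, T]` for large `T` -/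
theorem sup_of_eventual {z : ℝ → ℝ} (hz : Continuous z) {e T0 : ℝ} (he : 0 < e)
    (h : ∀ t : ℝ, T0 ≤ t → z t ≤ t ^ e) :
    ∃ T1 : ℝ, ∀ T : ℝ, T1 ≤ T → ∀ t ∈ Icc (0:ℝ) T, z t ≤ T ^ e := by
  obtain ⟨D, hD⟩ := (isCompact_Icc (a := (0:ℝ)) (b := max T0 0)).exists_bound_of_continuousOn
    hz.continuousOn
  have h1 : ∀ᶠ T : ℝ in atTop, D ≤ T ^ e := (tendsto_rpow_atTop he).eventually_ge_atTop D
  obtain ⟨T1, hT1⟩ := eventually_atTop.1 h1
  refine ⟨T1, fun T hT t ht => ?_⟩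
  rcases le_total t (max T0 0) with h2 | h2
  · have h3 := hD t ⟨ht.1, h2⟩
    rw [Real.norm_eq_abs] at h3
    exact (le_abs_self _).trans (h3.trans (hT1 T hT))
  · refine (h t ((le_max_left _ _).trans h2)).trans ?_
    exact Real.rpow_le_rpow ht.1 ht.2 he.le

/-- large orders: `z ≤ T ^ e` on `[0, T]` and `2 e log T ≤ k log log T` -/
theorem moment_large {z : ℝ → ℝ} (hz : Continuous z) (hz0 : ∀ t, 0 ≤ z t) {T e k : ℝ}
    (hT : 1 < Real.log T) (hT0 : 0 < T) (hk : 0 ≤ k)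
    (hW : ∀ t ∈ Icc (0:ℝ) T, z t ≤ T ^ e)
    (h : 2 * e * Real.log T ≤ k * Real.log (Real.log T)) :
    ∫ t in (0:ℝ)..T, z t ^ (2 * k) ≤ T * Real.log T ^ (k ^ 2) := by
  refine (moment_sup hz hz0 hT0.le hk hW).trans ?_
  apply mul_le_mul_of_nonneg_left _ hT0.le
  rw [← Real.rpow_mul hT0.le, Real.rpow_def_of_pos hT0, Real.rpow_def_of_pos (by linarith)]
  apply Real.exp_le_exp.2
  have h1 := mul_le_mul_of_nonneg_left h hk
  calc Real.log T * (e * (2 * k)) = k * (2 * e * Real.log T) := by ring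
    _ ≤ k * (k * Real.log (Real.log T)) := h1
    _ = Real.log (Real.log T) * k ^ 2 := by ring

/-- the form with a frontier `κ log T / log log T`, `κ > 2 θ` -/
theorem frontier_of {z : ℝ → ℝ} (hz : Continuous z) (hz0 : ∀ t, 0 ≤ z t) {θ κ : ℝ} (hθ : 0 ≤ θ)
    (hκ : 2 * θ < κ) (h : ∀ ε : ℝ, 0 < ε → ∃ T0 : ℝ, ∀ t : ℝ, T0 ≤ t → z t ≤ t ^ (θ + ε)) :
    ∃ T0 : ℝ, ∀ T : ℝ, T0 ≤ T → ∀ k : ℝ, κ * Real.log T / Real.log (Real.log T) ≤ k →
      ∫ t in (0:ℝ)..T, z t ^ (2 * k) ≤ T * Real.log T ^ (k ^ 2) := by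
  set ε : ℝ := (κ - 2 * θ) / 2 with hε
  have hε0 : 0 < ε := by rw [hε]; linarith
  obtain ⟨T0, hT0⟩ := h ε hε0
  obtain ⟨T1, hT1⟩ := sup_of_eventual hz (by linarith : 0 < θ + ε) hT0
  refine ⟨max T1 (Real.exp (Real.exp 1)), fun T hT k hk => ?_⟩
  have hTe : Real.exp (Real.exp 1) ≤ T := (le_max_right _ _).trans hT
  have hTpos : 0 < T := lt_of_lt_of_le (Real.exp_pos _) hTe
  have hl : Real.exp 1 ≤ Real.log T := (Real.le_log_iff_exp_le hTpos).2 hTe
  have hl1 : 1 < Real.log T := lt_of_lt_of_le (by have := Real.exp_one_gt_d9; linarith) hl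
  have hll : 1 ≤ Real.log (Real.log T) := (Real.le_log_iff_exp_le (by linarith)).2 hl
  have hk' : κ * Real.log T ≤ k * Real.log (Real.log T) := by
    rwa [div_le_iff₀ (by linarith)] at hk
  have hk0 : 0 ≤ k := by
    refine le_trans ?_ hk
    apply div_nonneg _ (by linarith)
    have : 0 ≤ κ := by linarith
    nlinarith
  apply moment_large hz hz0 hl1 hTpos hk0 (hT1 T ((le_max_left _ _).trans hT))
  refine le_trans (le_of_eq ?_) hk'
  rw [hε]; ring

end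

end Pool.Agent.Y959.Hm
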