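import Mathlib
import Pool.Agent.Y959.Hm.Large
import Pool.Agent.Y959.Hm.Conv

set_option autoImplicit false

/-!
# Orders at every scale above `(log T / log log T) ^ (1/2)`
-/

namespace Pool.Agent.Y959.Hm

open MeasureTheory Set Filter Topology

noncomputable section

/-- numbers of size `log` and `log log` -/
theorem big_facts (D : ℝ) : ∃ T0 : ℝ, ∀ T : ℝ, T0 ≤ T → Real.exp (Real.exp 1) ≤ T ∧
    1 < Real.log T ∧ 1 ≤ Real.log (Real.log T) ∧ D ≤ Real.log T := by
  have h1 := Real.tendsto_log_atTop.eventually_ge_atTop D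
  obtain ⟨T1, hT1⟩ := eventually_atTop.1 h1
  refine ⟨max T1 (Real.exp (Real.exp 1)), fun T hT => ?_⟩
  have hTe : Real.exp (Real.exp 1) ≤ T := (le_max_right _ _).trans hT
  have hTpos : 0 < T := lt_of_lt_of_le (Real.exp_pos _) hTe
  have hl : Real.exp 1 ≤ Real.log T := (Real.le_log_iff_exp_le hTpos).2 hTe
  have hl1 : 1 < Real.log T := lt_of_lt_of_le (by have := Real.exp_one_gt_d9; linarith) hl
  exact ⟨hTe, hl1, (Real.le_log_iff_exp_le (by linarith)).2 hl, hT1 T ((le_max_left _ _).trans hT)⟩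

/-- the basic inequality for one value: `L` is a bound for the Lipschitz constant -/
theorem log_value {z : ℝ → ℝ} (hz : Continuous z) (hz0 : ∀ t, 0 ≤ z t) {t T L k : ℝ}
    (hk : 0 < k) (hL : 1 ≤ L) (ht : 1 ≤ t) (htT : t ≤ T) (hlT : 1 < Real.log T) (h1 : 1 ≤ z t)
    (hlip : ∀ u ∈ Icc (t - 1 / 2) t, z t - L * (t - u) ≤ z u)
    (h : ∫ t in (0:ℝ)..T, z t ^ (2 * k) ≤ T * Real.log T ^ (k ^ 2)) :
    2 * k * (Real.log (z t) - Real.log 2) ≤
      Real.log (2 * L) + Real.log T + k ^ 2 * Real.log (Real.log T) := by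
  have hT0 : 0 < T := by linarith
  have hzp : 0 < z t := by linarith
  have hck : Continuous fun t => z t ^ (2 * k) :=
    hz.rpow_const (fun t => Or.inr (by linarith))
  have h2 := moment_lower hz hz0 hk.le hL ht h1 hlip
  have h3 : ∫ t in (0:ℝ)..t, z t ^ (2 * k) ≤ ∫ t in (0:ℝ)..T, z t ^ (2 * k) := by
    have e1 : ∫ s in (0:ℝ)..T, z s ^ (2 * k) =
        (∫ s in (0:ℝ)..t, z s ^ (2 * k)) + ∫ s in t..T, z s ^ (2 * k) :=
      (intervalIntegral.integral_add_adjacent_intervals (hck.intervalIntegrable _ _)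
        (hck.intervalIntegrable _ _)).symm
    have e2 : 0 ≤ ∫ s in t..T, z s ^ (2 * k) :=
      intervalIntegral.integral_nonneg htT (fun s _ => Real.rpow_nonneg (hz0 s) _)
    linarith
  have h4 := Real.log_le_log (by positivity) ((h2.trans h3).trans h)
  have e1 : Real.log (1 / (2 * L) * (z t / 2) ^ (2 * k)) =
      -Real.log (2 * L) + 2 * k * (Real.log (z t) - Real.log 2) := by
    rw [Real.log_mul (by positivity) (by positivity), Real.log_rpow (by positivity),
      Real.log_div hzp.ne' (by norm_num), one_div, Real.log_inv]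
  have e2 : Real.log (T * Real.log T ^ (k ^ 2)) = Real.log T + k ^ 2 * Real.log (Real.log T) := by
    rw [Real.log_mul hT0.ne' (by positivity), Real.log_rpow (by linarith)]
  rw [e1, e2] at h4
  linarith

/-- **every scale**: the inequality for all orders `k ≥ C ψ(T)` is equivalent to the bound
`(log T) ^ (C ψ(T))` for the maximum -/
theorem scale_iff {z : ℝ → ℝ} (hz : Continuous z) (hz0 : ∀ t, 0 ≤ z t) {C B : ℝ}
    (hC : 1 ≤ C) (hB : 0 ≤ B)
    (hlip : ∀ T : ℝ, 3 ≤ T → ∀ u ∈ Icc (T - 1 / 2) T, z T - C * T ^ B * (T - u) ≤ z u)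
    (ψ : ℝ → ℝ) (hψ : ∃ T0 : ℝ, ∀ T : ℝ, T0 ≤ T →
      Real.sqrt (Real.log T / Real.log (Real.log T)) ≤ ψ T) :
    (∃ A T0 : ℝ, ∀ T : ℝ, T0 ≤ T → ∀ k : ℝ, A * ψ T ≤ k →
      ∫ t in (0:ℝ)..T, z t ^ (2 * k) ≤ T * Real.log T ^ (k ^ 2)) ↔
    (∃ A T0 : ℝ, ∀ T : ℝ, T0 ≤ T → ∀ t : ℝ, 0 ≤ t → t ≤ T → z t ≤ Real.log T ^ (A * ψ T)) := by
  obtain ⟨T2, hT2⟩ := hψ
  constructor
  · rintro ⟨A, T0, h⟩
    obtain ⟨D, hD⟩ := (isCompact_Icc (a := (0:ℝ)) (b := 3)).exists_bound_of_continuousOn
      hz.continuousOn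
    obtain ⟨T3, hT3⟩ := big_facts (Real.log (max D 1) ^ 2)
    set A1 : ℝ := max A 1 with hA1
    set E : ℝ := (Real.log (2 * C) + B + 1) / 2 + 3 / 2 with hE
    have hlC : 0 ≤ Real.log (2 * C) := Real.log_nonneg (by linarith)
    have hE1 : 1 ≤ E := by rw [hE]; linarith
    refine ⟨E * A1, max (max T0 T2) T3, fun T hT t ht0 htT => ?_⟩
    have hTT0 : T0 ≤ T := (le_max_left _ _).trans ((le_max_left _ _).trans hT)
    have hTT2 : T2 ≤ T := (le_max_right _ _).trans ((le_max_left _ _).trans hT)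
    obtain ⟨hTe, hl1, hll, hDl⟩ := hT3 T ((le_max_right _ _).trans hT)
    have hTpos : 0 < T := lt_of_lt_of_le (Real.exp_pos _) hTe
    have hψT := hT2 T hTT2
    set l := Real.log T with hl
    set m := Real.log l with hm
    have hs0 : 0 < Real.sqrt (l / m) := Real.sqrt_pos.2 (by positivity)
    have hψ0 : 0 < ψ T := lt_of_lt_of_le hs0 hψT
    have hA11 : 1 ≤ A1 := le_max_right _ _
    set k : ℝ := A1 * ψ T with hk
    have hk0 : 0 < k := by positivity
    have hψk : ψ T ≤ k := le_mul_of_one_le_left hψ0.le hA11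
    have hkk : l ≤ k ^ 2 * m := by
      have h1 : l / m ≤ k ^ 2 := by
        have h2 : Real.sqrt (l / m) ^ 2 ≤ k ^ 2 := by
          have : Real.sqrt (l / m) ≤ k := hψT.trans hψk
          gcongr
        rwa [Real.sq_sqrt (by positivity)] at h2
      rwa [div_le_iff₀ (by linarith)] at h1
    have hkm2 : l ≤ (k * m) ^ 2 := by
      have : k ^ 2 * m ≤ (k * m) ^ 2 := by
        have e : (k * m) ^ 2 = k ^ 2 * m ^ 2 := by ring
        rw [e]
        have : m ≤ m ^ 2 := by nlinarith
        exact mul_le_mul_of_nonneg_left this (sq_nonneg k)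
      linarith
    have hkm1 : 1 ≤ k * m := by
      by_contra hcon
      rw [not_le] at hcon
      have : (k * m) ^ 2 < 1 := by
        have h0 : 0 ≤ k * m := by positivity
        nlinarith
      linarith
    have hgoal : ∀ x : ℝ, 0 < x → Real.log x ≤ E * (k * m) → x ≤ l ^ (E * A1 * ψ T) := by
      intro x hx hlx
      rw [Real.rpow_def_of_pos (by linarith), ← Real.log_le_iff_le_exp hx]
      refine hlx.trans (le_of_eq ?_)
      rw [hk]; ring
    rcases lt_or_ge (z t) 1 with hz1 | hz1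
    · refine hz1.le.trans ?_
      exact Real.one_le_rpow hl1.le (by positivity)
    apply hgoal (z t) (by linarith)
    rcases le_total t 3 with ht3 | ht3
    · have h1 := hD t ⟨ht0, ht3⟩
      rw [Real.norm_eq_abs, abs_of_nonneg (hz0 t)] at h1
      have h2 : Real.log (z t) ≤ Real.log (max D 1) :=
        Real.log_le_log (by linarith) (h1.trans (le_max_left _ _))
      have h3 : Real.log (max D 1) ≤ k * m := by
        have h4 : Real.log (max D 1) ^ 2 ≤ (k * m) ^ 2 := hDl.trans hkm2
        exact le_of_sq_le_sq h4 (by positivity)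
      calc Real.log (z t) ≤ k * m := h2.trans h3
        _ ≤ E * (k * m) := le_mul_of_one_le_left (by positivity) hE1
    · have htB : 1 ≤ C * t ^ B := by
        have : 1 ≤ t ^ B := Real.one_le_rpow (by linarith) hB
        nlinarith
      have h1 := log_value hz hz0 hk0 htB (by linarith) htT hl1 hz1 (hlip t ht3)
        (h T hTT0 k (by
          rw [hk]
          have : A ≤ A1 := le_max_left _ _
          gcongr))
      have h2 : Real.log (2 * (C * t ^ B)) ≤ Real.log (2 * C) + B * l := by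
        rw [show 2 * (C * t ^ B) = (2 * C) * t ^ B by ring, Real.log_mul (by positivity) (by positivity),
          Real.log_rpow (by linarith)]
        have : Real.log t ≤ l := Real.log_le_log (by linarith) htT
        gcongr
      have h3 : Real.log (2 * C) ≤ Real.log (2 * C) * l := le_mul_of_one_le_right hlC hl1.le
      have h4 : 2 * k * (Real.log (z t) - Real.log 2) ≤
          (Real.log (2 * C) + B + 1) * l + k ^ 2 * m := by linarith
      have h5 : (Real.log (2 * C) + B + 1) * l ≤ (Real.log (2 * C) + B + 1) * (k ^ 2 * m) := by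
        gcongr
      have h6 : 2 * k * (Real.log (z t) - Real.log 2) ≤
          2 * k * (((Real.log (2 * C) + B + 1) / 2 + 1 / 2) * (k * m)) := by
        refine (h4.trans (by linarith : _ ≤ (Real.log (2 * C) + B + 1) * (k ^ 2 * m) + k ^ 2 * m)).trans
          (le_of_eq ?_)
        ring
      have h7 := le_of_mul_le_mul_left h6 (by positivity)
      have h8 : Real.log 2 ≤ 1 := by have := Real.log_two_lt_d9; linarith
      have h9 : E * (k * m) = ((Real.log (2 * C) + B + 1) / 2 + 1 / 2) * (k * m) + k * m := by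
        rw [hE]; ring
      rw [h9]
      linarith
  · rintro ⟨A, T0, h⟩
    obtain ⟨T3, hT3⟩ := big_facts 0
    refine ⟨max (2 * A) 0, max (max T0 T2) T3, fun T hT k hk => ?_⟩
    have hTT0 : T0 ≤ T := (le_max_left _ _).trans ((le_max_left _ _).trans hT)
    have hTT2 : T2 ≤ T := (le_max_right _ _).trans ((le_max_left _ _).trans hT)
    obtain ⟨hTe, hl1, hll, -⟩ := hT3 T ((le_max_right _ _).trans hT)
    have hTpos : 0 < T := lt_of_lt_of_le (Real.exp_pos _) hTe
    have hψT := hT2 T hTT2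
    have hψ0 : 0 ≤ ψ T := (Real.sqrt_nonneg _).trans hψT
    have hk0 : 0 ≤ k := le_trans (mul_nonneg (le_max_right _ _) hψ0) hk
    have hk2 : 2 * A * ψ T ≤ k := by
      refine le_trans ?_ hk
      gcongr
      exact le_max_left _ _
    refine (moment_sup hz hz0 hTpos.le hk0 (fun t ht => h T hTT0 t ht.1 ht.2)).trans ?_
    apply mul_le_mul_of_nonneg_left _ hTpos.le
    rw [← Real.rpow_mul (by linarith)]
    apply Real.rpow_le_rpow_of_exponent_le hl1.le
    nlinarith

end

end Pool.Agent.Y959.Hm
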