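import Mathlib
import Pool.Agent.Y959.Hm.Scale
import Pool.Agent.Y959.Hm.Lip
import Pool.Agent.Y959.Hm.LipS

set_option autoImplicit false

/-!
# The critical scale `(log T / log log T) ^ (1/2)`
-/

namespace Pool.Agent.Y959.Hm

open MeasureTheory Set Filter Topology

noncomputable section

/-- the critical order -/
def kc (T : ℝ) : ℝ := Real.sqrt (Real.log T / Real.log (Real.log T))

/-- the critical size -/
def vc (T : ℝ) : ℝ := Real.sqrt (Real.log T * Real.log (Real.log T))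

lemma kc_facts {T : ℝ} (hl1 : 1 < Real.log T) (hll : 1 ≤ Real.log (Real.log T)) :
    1 ≤ kc T ∧ kc T ^ 2 * Real.log (Real.log T) = Real.log T ∧ kc T * vc T = Real.log T ∧
      Real.sqrt (Real.log T) ≤ vc T ∧ kc T * Real.log (Real.log T) = vc T := by
  set l := Real.log T with hl
  set m := Real.log l with hm
  have hml : m ≤ l := by
    have := Real.log_le_sub_one_of_pos (by linarith : 0 < l)
    linarith
  have hm0 : 0 < m := by linarith
  have hl0 : 0 < l := by linarith
  refine ⟨?_, ?_, ?_, ?_, ?_⟩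
  · rw [kc, ← hl, ← hm, Real.le_sqrt' one_pos, one_pow, le_div_iff₀ hm0]
    linarith
  · rw [kc, ← hl, ← hm, Real.sq_sqrt (by positivity)]
    field_simp
  · rw [kc, vc, ← hl, ← hm, ← Real.sqrt_mul (by positivity)]
    have : l / m * (l * m) = l ^ 2 := by field_simp
    rw [this, Real.sqrt_sq hl0.le]
  · rw [vc, ← hl, ← hm]
    apply Real.sqrt_le_sqrt
    nlinarith
  · rw [kc, vc, ← hl, ← hm]
    have h1 : m = Real.sqrt (m ^ 2) := (Real.sqrt_sq hm0.le).symm
    nth_rewrite 2 [h1]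
    rw [← Real.sqrt_mul (by positivity)]
    congr 1
    field_simp

/-- one large value at the critical order -/
theorem step {z : ℝ → ℝ} (hz : Continuous z) (hz0 : ∀ t, 0 ≤ z t) {t L b c : ℝ}
    (hte : Real.exp (Real.exp 1) ≤ t) (hl1 : 1 < Real.log t) (hll : 1 ≤ Real.log (Real.log t))
    (hb : 0 ≤ b) (hc : 0 ≤ c) (hL : 1 ≤ L) (hL2 : Real.log (2 * L) ≤ c + b * Real.log t)
    (hlip : ∀ u ∈ Icc (t - 1 / 2) t, z t - L * (t - u) ≤ z u)
    (h : ∫ s in (0:ℝ)..t, z s ^ (2 * kc t) ≤ t * Real.log t ^ (kc t ^ 2)) :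
    z t ≤ Real.exp (1 + c + (1 + b / 2) * vc t) := by
  obtain ⟨f1, f2, f3, f4, f5⟩ := kc_facts hl1 hll
  have hv0 : 0 ≤ vc t := Real.sqrt_nonneg _
  rcases lt_or_ge (z t) 1 with hz1 | hz1
  · refine hz1.le.trans ?_
    rw [Real.one_le_exp_iff]
    positivity
  have hzp : 0 < z t := by linarith
  have ht1 : 1 ≤ t := by
    have h1 := Real.add_one_le_exp (Real.exp 1)
    have h2 := Real.exp_pos 1
    linarith
  have h1 := log_value hz hz0 (by linarith) hL ht1 le_rfl hl1 hz1 hlip h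
  rw [f2] at h1
  have h2 : 2 * kc t * (Real.log (z t) - Real.log 2) ≤ 2 * kc t * (c + (1 + b / 2) * vc t) := by
    have h3 : 2 * kc t * (c + (1 + b / 2) * vc t) = 2 * kc t * c + (2 + b) * (kc t * vc t) := by ring
    rw [h3, f3]
    have h4 : c ≤ 2 * kc t * c := by nlinarith
    linarith
  have h3 := le_of_mul_le_mul_left h2 (by positivity)
  have h4 : Real.log 2 ≤ 1 := by have := Real.log_two_lt_d9; linarith
  rw [← Real.log_le_iff_le_exp hzp]
  linarith

/-- **the critical scale**: the inequality at the single order `kc T` bounds the maximum -/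
theorem sharp (h : ∃ T0 : ℝ, ∀ T : ℝ, T0 ≤ T →
      ∫ s in (0:ℝ)..T, ‖riemannZeta (1 / 2 + s * Complex.I)‖ ^ (2 * kc T) ≤
        T * Real.log T ^ (kc T ^ 2)) {ε : ℝ} (hε : 0 < ε) :
    ∃ T0 : ℝ, ∀ t : ℝ, T0 ≤ t →
      ‖riemannZeta (1 / 2 + t * Complex.I)‖ ≤ Real.exp ((1 + ε) * vc t) := by
  obtain ⟨T0, hT0⟩ := h
  obtain ⟨C, B, hC, hB, hlip⟩ := zeta_lip
  have hz := zeta_half_cont
  have hz0 : ∀ t : ℝ, 0 ≤ ‖riemannZeta (1 / 2 + t * Complex.I)‖ := fun t => norm_nonneg _
  have hlC : 0 ≤ Real.log (2 * C) := Real.log_nonneg (by linarith)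
  -- the Lindelöf bound
  have hLH : ∀ η : ℝ, 0 < η → ∃ T1 : ℝ, ∀ t : ℝ, T1 ≤ t →
      ‖riemannZeta (1 / 2 + t * Complex.I)‖ ≤ t ^ η := by
    intro η hη
    set δ : ℝ := (η / (2 * (1 + B / 2))) ^ 2 with hδ
    have hδ0 : 0 < δ := by positivity
    obtain ⟨T2, hT2⟩ := loglog_small 0 1 δ hδ0
    obtain ⟨T3, hT3⟩ := big_facts (2 * (1 + Real.log (2 * C)) / η)
    refine ⟨max (max T0 T2) T3, fun t ht => ?_⟩
    have ht0 : T0 ≤ t := (le_max_left _ _).trans ((le_max_left _ _).trans ht)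
    have ht2 : T2 ≤ t := (le_max_right _ _).trans ((le_max_left _ _).trans ht)
    obtain ⟨hte, hl1, hll, hD⟩ := hT3 t ((le_max_right _ _).trans ht)
    have htpos : 0 < t := lt_of_lt_of_le (Real.exp_pos _) hte
    have ht3 : 3 ≤ t := by
      have h1 := Real.add_one_le_exp (Real.exp 1)
      have h2 := Real.exp_one_gt_d9
      linarith
    have htB : 1 ≤ t ^ B := Real.one_le_rpow (by linarith) hB
    have h1 := step hz hz0 hte hl1 hll hB hlC (by nlinarith : 1 ≤ C * t ^ B) (by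
      rw [show 2 * (C * t ^ B) = (2 * C) * t ^ B by ring,
        Real.log_mul (by positivity) (by positivity), Real.log_rpow htpos]) (hlip t ht3) (hT0 t ht0)
    refine h1.trans ?_
    rw [Real.rpow_def_of_pos htpos]
    apply Real.exp_le_exp.2
    have h2 := hT2 t ht2
    rw [zero_add, one_mul] at h2
    have hl0 : 0 < Real.log t := by linarith
    have h3 : vc t ≤ η / (2 * (1 + B / 2)) * Real.log t := by
      rw [vc]
      rw [Real.sqrt_le_iff]
      refine ⟨by positivity, ?_⟩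
      calc Real.log t * Real.log (Real.log t) ≤ Real.log t * (δ * Real.log t) := by gcongr
        _ = _ := by rw [hδ]; ring
    have h4 : (1 + B / 2) * vc t ≤ η / 2 * Real.log t := by
      calc (1 + B / 2) * vc t ≤ (1 + B / 2) * (η / (2 * (1 + B / 2)) * Real.log t) := by gcongr
        _ = η / 2 * Real.log t := by field_simp
    have h5 : 1 + Real.log (2 * C) ≤ η / 2 * Real.log t := by
      rw [div_le_iff₀ hη] at hD
      linarith
    linarith
  obtain ⟨T1, hT1⟩ := lip_small hLH hε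
  obtain ⟨T3, hT3⟩ := big_facts ((4 / ε) ^ 2)
  refine ⟨max (max T0 T1) T3, fun t ht => ?_⟩
  have ht0 : T0 ≤ t := (le_max_left _ _).trans ((le_max_left _ _).trans ht)
  have ht1 : T1 ≤ t := (le_max_right _ _).trans ((le_max_left _ _).trans ht)
  obtain ⟨hte, hl1, hll, hD⟩ := hT3 t ((le_max_right _ _).trans ht)
  have htpos : 0 < t := lt_of_lt_of_le (Real.exp_pos _) hte
  have ht3 : 3 ≤ t := by
    have h1 := Real.add_one_le_exp (Real.exp 1)
    have h2 := Real.exp_one_gt_d9
    linarith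
  have h1 := step (L := t ^ ε) (b := ε) (c := 1) hz hz0 hte hl1 hll hε.le zero_le_one
    (Real.one_le_rpow (by linarith) hε.le)
    (by
      rw [Real.log_mul (by norm_num) (by positivity), Real.log_rpow htpos]
      have : Real.log 2 ≤ 1 := by have := Real.log_two_lt_d9; linarith
      linarith) (hT1 t ht1) (hT0 t ht0)
  refine h1.trans ?_
  apply Real.exp_le_exp.2
  obtain ⟨f1, f2, f3, f4, f5⟩ := kc_facts hl1 hll
  have h2 : 4 / ε ≤ vc t := by
    refine le_trans ?_ f4
    rw [Real.le_sqrt' (by positivity)]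
    exact hD
  rw [div_le_iff₀ hε] at h2
  linarith

/-- from the maximum to the moments, with the constant `2 c` -/
theorem sharp_conv {z : ℝ → ℝ} (hz : Continuous z) (hz0 : ∀ t, 0 ≤ z t) {c : ℝ} (hc : 0 < c)
    (h : ∃ T0 : ℝ, ∀ t : ℝ, T0 ≤ t → z t ≤ Real.exp (c * vc t)) :
    ∃ T0 : ℝ, ∀ T : ℝ, T0 ≤ T → ∀ k : ℝ, 2 * c * kc T ≤ k →
      ∫ s in (0:ℝ)..T, z s ^ (2 * k) ≤ T * Real.log T ^ (k ^ 2) := by
  obtain ⟨T0, hT0⟩ := h
  set T1 : ℝ := max T0 (Real.exp (Real.exp 1)) with hT1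
  obtain ⟨D, hD⟩ := (isCompact_Icc (a := (0:ℝ)) (b := T1)).exists_bound_of_continuousOn
    hz.continuousOn
  obtain ⟨T3, hT3⟩ := big_facts ((Real.log (max D 1) / c) ^ 2)
  refine ⟨max T1 T3, fun T hT k hk => ?_⟩
  obtain ⟨hTe, hl1, hll, hDl⟩ := hT3 T ((le_max_right _ _).trans hT)
  have hTpos : 0 < T := lt_of_lt_of_le (Real.exp_pos _) hTe
  obtain ⟨f1, f2, f3, f4, f5⟩ := kc_facts hl1 hll
  have hk0 : 0 < k := lt_of_lt_of_le (by positivity) hk
  have hsup : ∀ t ∈ Icc (0:ℝ) T, z t ≤ Real.exp (c * vc T) := by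
    intro t ht
    rcases le_total t T1 with h1 | h1
    · have h2 := hD t ⟨ht.1, h1⟩
      rw [Real.norm_eq_abs, abs_of_nonneg (hz0 t)] at h2
      have h3 : Real.log (max D 1) / c ≤ vc T := by
        refine le_trans ?_ f4
        apply Real.le_sqrt_of_sq_le
        exact hDl
      rw [div_le_iff₀ hc] at h3
      calc z t ≤ max D 1 := h2.trans (le_max_left _ _)
        _ = Real.exp (Real.log (max D 1)) := (Real.exp_log (by positivity)).symm
        _ ≤ _ := by apply Real.exp_le_exp.2; linarith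
    · refine (hT0 t ((le_max_left _ _).trans h1)).trans ?_
      apply Real.exp_le_exp.2
      have hte : Real.exp (Real.exp 1) ≤ t := (le_max_right _ _).trans h1
      have htpos : 0 < t := lt_of_lt_of_le (Real.exp_pos _) hte
      have h2 : Real.exp 1 ≤ Real.log t := (Real.le_log_iff_exp_le htpos).2 hte
      have h3 : Real.log t ≤ Real.log T := Real.log_le_log htpos ht.2
      have h4 : 0 < Real.log t := lt_of_lt_of_le (Real.exp_pos _) h2
      have h5 : Real.log (Real.log t) ≤ Real.log (Real.log T) := Real.log_le_log h4 h3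
      have h6 : 1 ≤ Real.log (Real.log t) := (Real.le_log_iff_exp_le h4).2 h2
      have h7 : vc t ≤ vc T := by
        unfold vc
        apply Real.sqrt_le_sqrt
        gcongr
      gcongr
  refine (moment_sup hz hz0 hTpos.le hk0.le hsup).trans ?_
  apply mul_le_mul_of_nonneg_left _ hTpos.le
  rw [← Real.exp_mul, Real.rpow_def_of_pos (by linarith)]
  apply Real.exp_le_exp.2
  have h1 : 2 * c * vc T ≤ k * Real.log (Real.log T) := by
    rw [← f5]
    nlinarith
  nlinarith

end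

end Pool.Agent.Y959.Hm
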