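import Mathlib
import Pool.Agent.Y959.Hm.Sharp

set_option autoImplicit false

/-!
# One critical order controls all larger orders
-/

namespace Pool.Agent.Y959.Hm

open MeasureTheory Set Filter Topology

noncomputable section

/-- a bound for large arguments bounds the maximum over `[0, T]` -/
theorem sup_vc {z : ℝ → ℝ} (hz : Continuous z) (hz0 : ∀ t, 0 ≤ z t) {c : ℝ} (hc : 0 < c)
    (h : ∃ T0 : ℝ, ∀ t : ℝ, T0 ≤ t → z t ≤ Real.exp (c * vc t)) :
    ∃ T0 : ℝ, ∀ T : ℝ, T0 ≤ T → 0 < T ∧ 1 < Real.log T ∧ 1 ≤ Real.log (Real.log T) ∧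
      ∀ t ∈ Icc (0:ℝ) T, z t ≤ Real.exp (c * vc T) := by
  obtain ⟨T0, hT0⟩ := h
  set T1 : ℝ := max T0 (Real.exp (Real.exp 1)) with hT1
  obtain ⟨D, hD⟩ := (isCompact_Icc (a := (0:ℝ)) (b := T1)).exists_bound_of_continuousOn
    hz.continuousOn
  obtain ⟨T3, hT3⟩ := big_facts ((Real.log (max D 1) / c) ^ 2)
  refine ⟨max T1 T3, fun T hT => ?_⟩
  obtain ⟨hTe, hl1, hll, hDl⟩ := hT3 T ((le_max_right _ _).trans hT)
  have hTpos : 0 < T := lt_of_lt_of_le (Real.exp_pos _) hTe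
  obtain ⟨f1, f2, f3, f4, f5⟩ := kc_facts hl1 hll
  refine ⟨hTpos, hl1, hll, fun t ht => ?_⟩
  rcases le_total t T1 with h1 | h1
  · have h2 := hD t ⟨ht.1, h1⟩
    rw [Real.norm_eq_abs, abs_of_nonneg (hz0 t)] at h2
    have h3 : Real.log (max D 1) / c ≤ vc T := by
      refine le_trans ?_ f4
      apply Real.le_sqrt_of_sq_le
      exact hDl
    rw [div_le_iff₀ hc] at h3
    calc z t ≤ max D 1 := h2.trans (le_max_left _ _)
      _ = Real.exp (Real.log (max D 1)) := (Real.exp_log (by positivity)).symm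
      _ ≤ _ := by apply Real.exp_le_exp.2; linarith
  · refine (hT0 t ((le_max_left _ _).trans h1)).trans ?_
    apply Real.exp_le_exp.2
    have hte : Real.exp (Real.exp 1) ≤ t := (le_max_right _ _).trans h1
    have htpos : 0 < t := lt_of_lt_of_le (Real.exp_pos _) hte
    have h2 : Real.exp 1 ≤ Real.log t := (Real.le_log_iff_exp_le htpos).2 hte
    have h3 : Real.log t ≤ Real.log T := Real.log_le_log htpos ht.2
    have h4 : 0 < Real.log t := lt_of_lt_of_le (Real.exp_pos _) h2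
    have h5 : Real.log (Real.log t) ≤ Real.log (Real.log T) := Real.log_le_log h4 h3
    have h6 : 1 ≤ Real.log (Real.log t) := (Real.le_log_iff_exp_le h4).2 h2
    have h7 : vc t ≤ vc T := by
      unfold vc
      apply Real.sqrt_le_sqrt
      gcongr
    gcongr

/-- the moments of larger order from one moment and the maximum -/
theorem moment_two {z : ℝ → ℝ} (hz : Continuous z) (hz0 : ∀ t, 0 ≤ z t) {T W k q : ℝ} (hT : 0 ≤ T)
    (hW0 : 0 ≤ W) (hq : 0 ≤ q) (hk : q ≤ k) (hW : ∀ t ∈ Icc (0:ℝ) T, z t ≤ W) :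
    ∫ t in (0:ℝ)..T, z t ^ (2 * k) ≤ W ^ (2 * (k - q)) * ∫ t in (0:ℝ)..T, z t ^ (2 * q) := by
  rw [← intervalIntegral.integral_const_mul]
  apply intervalIntegral.integral_mono_on hT
  · exact (hz.rpow_const (fun t => Or.inr (by linarith))).intervalIntegrable _ _
  · exact (continuous_const.mul (hz.rpow_const (fun t => Or.inr (by linarith)))).intervalIntegrable _ _
  · intro t ht
    have e : z t ^ (2 * k) = z t ^ (2 * (k - q)) * z t ^ (2 * q) := by
      rw [← Real.rpow_add_of_nonneg (hz0 t) (by linarith) (by linarith)]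
      congr 1
      ring
    rw [e]
    apply mul_le_mul_of_nonneg_right _ (Real.rpow_nonneg (hz0 t) _)
    exact Real.rpow_le_rpow (hz0 t) (hW t ht) (by linarith)

/-- **one critical order controls all larger orders** -/
theorem sharp_all {z : ℝ → ℝ} (hz : Continuous z) (hz0 : ∀ t, 0 ≤ z t)
    (hcrit : ∃ T0 : ℝ, ∀ T : ℝ, T0 ≤ T →
      ∫ s in (0:ℝ)..T, z s ^ (2 * kc T) ≤ T * Real.log T ^ (kc T ^ 2))
    (hmax : ∀ ε : ℝ, 0 < ε → ∃ T0 : ℝ, ∀ t : ℝ, T0 ≤ t → z t ≤ Real.exp ((1 + ε) * vc t))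
    {ε : ℝ} (hε : 0 < ε) :
    ∃ T0 : ℝ, ∀ T : ℝ, T0 ≤ T → ∀ k : ℝ, (1 + ε) * kc T ≤ k →
      ∫ s in (0:ℝ)..T, z s ^ (2 * k) ≤ T * Real.log T ^ (k ^ 2) := by
  obtain ⟨T0, hT0⟩ := hcrit
  obtain ⟨T1, hT1⟩ := sup_vc hz hz0 (c := 1 + ε / 2) (by positivity) (hmax (ε / 2) (by positivity))
  refine ⟨max T0 T1, fun T hT k hk => ?_⟩
  obtain ⟨hTpos, hl1, hll, hsup⟩ := hT1 T ((le_max_right _ _).trans hT)
  obtain ⟨f1, f2, f3, f4, f5⟩ := kc_facts hl1 hll
  set q := kc T with hq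
  set m := Real.log (Real.log T) with hm
  have hq0 : 0 < q := by linarith
  have hm0 : 0 < m := by linarith
  have hqk : q ≤ k := by nlinarith
  have h1 := moment_two hz hz0 hTpos.le (Real.exp_pos _).le hq0.le hqk hsup
  have h2 := hT0 T ((le_max_left _ _).trans hT)
  have h3 : ∫ s in (0:ℝ)..T, z s ^ (2 * k) ≤ Real.exp ((1 + ε / 2) * vc T) ^ (2 * (k - q)) *
      (T * Real.log T ^ (q ^ 2)) := by
    refine h1.trans ?_
    gcongr
  refine h3.trans ?_
  rw [← Real.exp_mul, Real.rpow_def_of_pos (by linarith), Real.rpow_def_of_pos (by linarith)]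
  have e : Real.exp ((1 + ε / 2) * vc T * (2 * (k - q))) * (T * Real.exp (m * q ^ 2)) =
      T * Real.exp ((1 + ε / 2) * vc T * (2 * (k - q)) + m * q ^ 2) := by
    rw [Real.exp_add]; ring
  rw [e]
  apply mul_le_mul_of_nonneg_left _ hTpos.le
  apply Real.exp_le_exp.2
  rw [← f5]
  have h4 : 0 ≤ (k - q) * (k - q - ε * q) := by
    apply mul_nonneg (by linarith)
    linarith
  have h5 : m * k ^ 2 - ((1 + ε / 2) * (q * m) * (2 * (k - q)) + m * q ^ 2) =
      m * ((k - q) * (k - q - ε * q)) := by ring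
  have h6 : 0 ≤ m * ((k - q) * (k - q - ε * q)) := mul_nonneg hm0.le h4
  linarith

end

end Pool.Agent.Y959.Hm
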