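import Mathlib
import Pool.Agent.Y959.Hm.Sharp

set_option autoImplicit false

/-!
# Sharp equivalence at every scale above the critical one
-/

namespace Pool.Agent.Y959.Hm

open MeasureTheory Set Filter Topology

noncomputable section

/-- **every scale above the critical one**, with the sharp constant -/
theorem scale_sharp {z : ℝ → ℝ} (hz : Continuous z) (hz0 : ∀ t, 0 ≤ z t) {C B : ℝ}
    (hC : 1 ≤ C) (hB : 0 ≤ B)
    (hlip : ∀ T : ℝ, 3 ≤ T → ∀ u ∈ Icc (T - 1 / 2) T, z T - C * T ^ B * (T - u) ≤ z u)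
    (ψ : ℝ → ℝ) (hψ : Tendsto (fun T => ψ T / kc T) atTop atTop) {A : ℝ} (hA : 0 ≤ A) :
    (∀ A' : ℝ, A < A' → ∃ T0 : ℝ, ∀ T : ℝ, T0 ≤ T → ∀ k : ℝ, A' * ψ T ≤ k →
      ∫ t in (0:ℝ)..T, z t ^ (2 * k) ≤ T * Real.log T ^ (k ^ 2)) ↔
    (∀ A' : ℝ, A < A' → ∃ T0 : ℝ, ∀ T : ℝ, T0 ≤ T → ∀ t : ℝ, 0 ≤ t → t ≤ T →
      z t ≤ Real.log T ^ (A' / 2 * ψ T)) := by
  constructor
  · intro h A' hA'
    set a : ℝ := (A + A') / 2 with ha
    have haA : A < a := by rw [ha]; linarith
    have haA' : a < A' := by rw [ha]; linarith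
    have ha0 : 0 < a := by linarith
    obtain ⟨T0, hT0⟩ := h a haA
    set δ : ℝ := A' / a - 1 with hδ
    have hδ0 : 0 < δ := by
      have : 1 < A' / a := by rw [lt_div_iff₀ ha0]; linarith
      linarith
    have hlC : 0 ≤ Real.log (2 * C) := Real.log_nonneg (by linarith)
    set D : ℝ := Real.log (2 * C) + B + 1 with hD
    have hD0 : 0 < D := by linarith
    set R : ℝ := 2 + 4 / δ + 2 * D / δ with hR
    have hR2 : 2 ≤ R := by
      have h1 : 0 < 4 / δ := by positivity
      have h2 : 0 < 2 * D / δ := by positivity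
      linarith
    have hR4 : 4 / δ ≤ R := by
      have h2 : 0 < 2 * D / δ := by positivity
      linarith
    have hRD : 2 * D / δ ≤ R := by
      have h2 : 0 < 4 / δ := by positivity
      linarith
    obtain ⟨T2, hT2⟩ := eventually_atTop.1 (hψ.eventually_ge_atTop (R / a))
    obtain ⟨E, hE⟩ := (isCompact_Icc (a := (0:ℝ)) (b := 3)).exists_bound_of_continuousOn
      hz.continuousOn
    obtain ⟨T3, hT3⟩ := big_facts (Real.log (max E 1) ^ 2)
    refine ⟨max (max T0 T2) T3, fun T hT t ht0 htT => ?_⟩
    have hTT0 : T0 ≤ T := (le_max_left _ _).trans ((le_max_left _ _).trans hT)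
    have hTT2 : T2 ≤ T := (le_max_right _ _).trans ((le_max_left _ _).trans hT)
    obtain ⟨hTe, hl1, hll, hDl⟩ := hT3 T ((le_max_right _ _).trans hT)
    have hTpos : 0 < T := lt_of_lt_of_le (Real.exp_pos _) hTe
    obtain ⟨f1, f2, f3, f4, f5⟩ := kc_facts hl1 hll
    have hq0 : 0 < kc T := by linarith
    have hψR : R * kc T ≤ a * ψ T := by
      have h1 := hT2 T hTT2
      rw [le_div_iff₀ hq0] at h1
      have h2 := mul_le_mul_of_nonneg_left h1 ha0.le
      calc R * kc T = a * (R / a * kc T) := by field_simp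
        _ ≤ a * ψ T := h2
    set l := Real.log T with hl
    set m := Real.log l with hm
    set k : ℝ := a * ψ T with hk
    have hk0 : 0 < k := lt_of_lt_of_le (by positivity) hψR
    have hm0 : 0 < m := by linarith
    have hkm : R * vc T ≤ k * m := by
      rw [← f5]
      calc R * (kc T * m) = (R * kc T) * m := by ring
        _ ≤ k * m := by gcongr
    have hvl : Real.sqrt l ≤ vc T := f4
    have hv1 : 1 ≤ vc T := by
      refine le_trans ?_ hvl
      rw [Real.le_sqrt' one_pos]
      linarith
    have hexp : A' / 2 * ψ T * m = (1 + δ) * (k * m) / 2 := by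
      rw [hδ, hk]
      field_simp
      ring
    have hgoal : ∀ x : ℝ, 0 < x → Real.log x ≤ (1 + δ) * (k * m) / 2 → x ≤ l ^ (A' / 2 * ψ T) := by
      intro x hx hlx
      rw [Real.rpow_def_of_pos (by linarith), ← Real.log_le_iff_le_exp hx]
      refine hlx.trans (le_of_eq ?_)
      rw [← hexp]; ring
    have hkm0 : 0 < k * m := by positivity
    rcases lt_or_ge (z t) 1 with hz1 | hz1
    · refine hz1.le.trans ?_
      apply Real.one_le_rpow hl1.le
      have h1 : 0 < A' / 2 * ψ T * m := by rw [hexp]; positivity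
      exact (pos_of_mul_pos_left h1 hm0.le).le
    apply hgoal (z t) (by linarith)
    rcases le_total t 3 with ht3 | ht3
    · have h1 := hE t ⟨ht0, ht3⟩
      rw [Real.norm_eq_abs, abs_of_nonneg (hz0 t)] at h1
      have h2 : Real.log (z t) ≤ Real.log (max E 1) :=
        Real.log_le_log (by linarith) (h1.trans (le_max_left _ _))
      have h3 : Real.log (max E 1) ≤ vc T := by
        refine le_trans ?_ hvl
        apply Real.le_sqrt_of_sq_le
        exact hDl
      have h4 : 2 * vc T ≤ k * m := by
        refine le_trans ?_ hkm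
        gcongr
      have h5 : 0 ≤ δ * (k * m) := by positivity
      linarith
    · have htB : 1 ≤ C * t ^ B := by
        have : 1 ≤ t ^ B := Real.one_le_rpow (by linarith) hB
        nlinarith
      have h1 := log_value hz hz0 hk0 htB (by linarith) htT hl1 hz1 (hlip t ht3)
        (hT0 T hTT0 k le_rfl)
      have h2 : Real.log (2 * (C * t ^ B)) ≤ Real.log (2 * C) + B * l := by
        rw [show 2 * (C * t ^ B) = (2 * C) * t ^ B by ring, Real.log_mul (by positivity) (by positivity),
          Real.log_rpow (by linarith)]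
        have : Real.log t ≤ l := Real.log_le_log (by linarith) htT
        gcongr
      have h3 : Real.log (2 * C) ≤ Real.log (2 * C) * l := le_mul_of_one_le_right hlC hl1.le
      have h4 : 2 * k * (Real.log (z t) - Real.log 2) ≤ D * l + k ^ 2 * m := by
        rw [hD]
        linarith
      -- `D l ≤ (δ / 2) k² m`
      have h5 : R * l ≤ k ^ 2 * m := by
        have e1 : l = kc T ^ 2 * m := f2.symm
        have h6 : R * kc T ^ 2 ≤ k ^ 2 := by
          have h7 : (R * kc T) ^ 2 ≤ k ^ 2 := by gcongr
          have h8 : R * kc T ^ 2 ≤ (R * kc T) ^ 2 := by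
            have : R * kc T ^ 2 * 1 ≤ R * kc T ^ 2 * R := by gcongr; linarith
            nlinarith
          linarith
        calc R * l = (R * kc T ^ 2) * m := by rw [mul_assoc, f2]
          _ ≤ k ^ 2 * m := by gcongr
      have h6 : D * l ≤ δ / 2 * (k ^ 2 * m) := by
        have h7 : 2 * D ≤ R * δ := by
          rw [div_le_iff₀ hδ0] at hRD
          exact hRD
        have hl0 : 0 < l := by linarith
        have h8 : 2 * D * l ≤ R * δ * l := by gcongr
        have h9 : δ * (R * l) ≤ δ * (k ^ 2 * m) := by gcongr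
        linarith
      have h7 : 2 * k * (Real.log (z t) - Real.log 2) ≤ 2 * k * ((1 + δ / 2) * (k * m) / 2) := by
        refine (h4.trans (by linarith : _ ≤ δ / 2 * (k ^ 2 * m) + k ^ 2 * m)).trans (le_of_eq ?_)
        ring
      have h8 := le_of_mul_le_mul_left h7 (by positivity)
      have h9 : Real.log 2 ≤ 1 := by have := Real.log_two_lt_d9; linarith
      have h10 : 1 ≤ δ / 4 * (k * m) := by
        have h11 : 4 ≤ R * δ := by
          rw [div_le_iff₀ hδ0] at hR4
          exact hR4
        have h12 : R ≤ k * m := by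
          refine le_trans ?_ hkm
          nlinarith
        have h13 : R * δ ≤ k * m * δ := by gcongr
        linarith
      have h14 : (1 + δ) * (k * m) / 2 = (1 + δ / 2) * (k * m) / 2 + δ / 4 * (k * m) := by ring
      rw [h14]
      linarith
  · intro h A' hA'
    set a : ℝ := (A + A') / 2 with ha
    have haA : A < a := by rw [ha]; linarith
    have haA' : a < A' := by rw [ha]; linarith
    have ha0 : 0 < a := by linarith
    obtain ⟨T0, hT0⟩ := h a haA
    obtain ⟨T2, hT2⟩ := eventually_atTop.1 (hψ.eventually_ge_atTop 1)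
    obtain ⟨T3, hT3⟩ := big_facts 0
    refine ⟨max (max T0 T2) T3, fun T hT k hk => ?_⟩
    have hTT0 : T0 ≤ T := (le_max_left _ _).trans ((le_max_left _ _).trans hT)
    have hTT2 : T2 ≤ T := (le_max_right _ _).trans ((le_max_left _ _).trans hT)
    obtain ⟨hTe, hl1, hll, -⟩ := hT3 T ((le_max_right _ _).trans hT)
    have hTpos : 0 < T := lt_of_lt_of_le (Real.exp_pos _) hTe
    obtain ⟨f1, f2, f3, f4, f5⟩ := kc_facts hl1 hll
    have hψ0 : 0 ≤ ψ T := by
      have h1 := hT2 T hTT2
      rw [le_div_iff₀ (by linarith)] at h1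
      linarith
    have hk0 : 0 ≤ k := le_trans (mul_nonneg (by linarith) hψ0) hk
    have hk2 : a * ψ T ≤ k := by
      refine le_trans ?_ hk
      gcongr
    refine (moment_sup hz hz0 hTpos.le hk0 (fun t ht => hT0 T hTT0 t ht.1 ht.2)).trans ?_
    apply mul_le_mul_of_nonneg_left _ hTpos.le
    rw [← Real.rpow_mul (by linarith)]
    apply Real.rpow_le_rpow_of_exponent_le hl1.le
    nlinarith

end

end Pool.Agent.Y959.Hm
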