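import Mathlib

set_option autoImplicit false

/-!
# The moments of a function outside the set where it is large
-/

namespace Pool.Agent.Y959.Hm

open MeasureTheory Set

/-- the fourth moment bounds the measure of the set where `z > V` and all higher moments off it -/
theorem trunc {z : ℝ → ℝ} (hz : Continuous z) (hz0 : ∀ t, 0 ≤ z t) {T A V k : ℝ} (hT : 0 ≤ T)
    (hV : 0 < V) (hk : 2 ≤ k) (h4 : ∫ t in (0:ℝ)..T, z t ^ 4 ≤ A) :
    volume {t : ℝ | (0 ≤ t ∧ t ≤ T) ∧ V < z t} ≤ ENNReal.ofReal (A / V ^ 4) ∧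
    ∫ t in {t : ℝ | (0 ≤ t ∧ t ≤ T) ∧ z t ≤ V}, z t ^ (2 * k) ≤ V ^ (2 * k - 4) * A := by
  have hc4 : Continuous fun t => z t ^ 4 := hz.pow 4
  have hi4 : IntegrableOn (fun t => z t ^ 4) (Icc 0 T) volume :=
    hc4.continuousOn.integrableOn_Icc
  have e4 : ∫ t in (0:ℝ)..T, z t ^ 4 = ∫ t in Icc 0 T, z t ^ 4 := by
    rw [intervalIntegral.integral_of_le hT, integral_Icc_eq_integral_Ioc]
  rw [e4] at h4
  have hn4 : ∀ t, 0 ≤ z t ^ 4 := fun t => pow_nonneg (hz0 t) 4
  constructor
  · set E : Set ℝ := {t : ℝ | (0 ≤ t ∧ t ≤ T) ∧ V < z t} with hE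
    have hEs : E ⊆ Icc 0 T := fun t ht => ht.1
    have hEm : MeasurableSet E := by
      have h1 : MeasurableSet {t : ℝ | V < z t} := (isOpen_lt continuous_const hz).measurableSet
      exact measurableSet_Icc.inter h1
    have hEf : volume E ≠ ⊤ := ne_top_of_le_ne_top (by simp) (measure_mono hEs)
    have h1 : ∫ t in E, V ^ 4 ≤ ∫ t in E, z t ^ 4 := by
      apply setIntegral_mono_on (integrableOn_const (hs := hEf)) (hi4.mono_set hEs) hEm
      intro t ht
      have := ht.2
      gcongr
    have h2 : ∫ t in E, z t ^ 4 ≤ ∫ t in Icc 0 T, z t ^ 4 :=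
      setIntegral_mono_set hi4 (Filter.Eventually.of_forall hn4) (Filter.Eventually.of_forall hEs)
    rw [setIntegral_const, smul_eq_mul] at h1
    have h3 : volume.real E ≤ A / V ^ 4 := by
      rw [le_div_iff₀ (by positivity)]
      linarith
    rw [← ENNReal.ofReal_toReal hEf]
    exact ENNReal.ofReal_le_ofReal h3
  · set G : Set ℝ := {t : ℝ | (0 ≤ t ∧ t ≤ T) ∧ z t ≤ V} with hG
    have hGs : G ⊆ Icc 0 T := fun t ht => ht.1
    have hGm : MeasurableSet G := by
      have h1 : MeasurableSet {t : ℝ | z t ≤ V} := (isClosed_le hz continuous_const).measurableSet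
      exact measurableSet_Icc.inter h1
    have hck : Continuous fun t => z t ^ (2 * k) :=
      hz.rpow_const (fun t => Or.inr (by linarith))
    have hik : IntegrableOn (fun t => z t ^ (2 * k)) (Icc 0 T) volume :=
      hck.continuousOn.integrableOn_Icc
    have h1 : ∫ t in G, z t ^ (2 * k) ≤ ∫ t in G, V ^ (2 * k - 4) * z t ^ 4 := by
      apply setIntegral_mono_on (hik.mono_set hGs) ((hi4.mono_set hGs).const_mul _) hGm
      intro t ht
      have e : z t ^ (2 * k) = z t ^ (2 * k - 4) * z t ^ 4 := by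
        have : z t ^ 4 = z t ^ (4 : ℝ) := by norm_cast
        rw [this, ← Real.rpow_add_of_nonneg (hz0 t) (by linarith) (by norm_num)]
        congr 1
        ring
      rw [e]
      have h5 := hz0 t
      have h6 := ht.2
      gcongr
      linarith
    rw [integral_const_mul] at h1
    have h2 : ∫ t in G, z t ^ 4 ≤ ∫ t in Icc 0 T, z t ^ 4 :=
      setIntegral_mono_set hi4 (Filter.Eventually.of_forall hn4) (Filter.Eventually.of_forall hGs)
    refine h1.trans ?_
    have h7 : 0 ≤ V ^ (2 * k - 4) := by positivity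
    exact mul_le_mul_of_nonneg_left (h2.trans h4) h7

end Pool.Agent.Y959.Hm
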