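import Mathlib
import Pool.Agent.TH158.FM.Rng
import Pool.Agent.TH692.FM2.Norm3
import Pool.Agent.TH692.FM2.Range2

set_option autoImplicit false

/-!
# Orders close to the fourth moment, all `T`
-/

namespace Pool.Agent.Y959.Hm

open MeasureTheory Set Filter Topology Complex Pool.Agent.TH158.FM

noncomputable section

theorem norm2_true : S_NORM2 := Pool.Agent.TH692.FM2.norm2_all
    (Pool.Agent.TH615.J4553.hil_all Pool.Agent.TH158.FM.hil0_all)
    (Pool.Agent.TH158.FM.lap_all Pool.Agent.TH360.J4554.div_all)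

theorem range2_true : S_RANGE2 := Pool.Agent.TH692.FM2.range2_all

lemma VV_le {T : ℝ} (hT : 10 ^ 8 ≤ T) : VV T ≤ 3 * T ^ (1 / 4 : ℝ) := by
  have hT0 : 0 < T := by linarith
  unfold VV
  have h1 : (T / (2 * Real.pi)) ^ (1 / 4 : ℝ) ≤ T ^ (1 / 4 : ℝ) * (632 / 1000) := by
    rw [Real.div_rpow hT0.le (by positivity), div_eq_mul_inv]
    gcongr
    rw [← Real.inv_rpow (by positivity)]
    have h7 : (2 * Real.pi)⁻¹ ≤ (632 / 1000 : ℝ) ^ (4 : ℝ) := by
      have : (632 / 1000 : ℝ) ^ (4 : ℝ) = (632 / 1000) ^ 4 := by norm_cast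
      rw [this]
      have hpi := Real.pi_gt_d2
      rw [inv_le_comm₀ (by positivity) (by positivity)]
      refine le_trans ?_ (by linarith : (2 * 3.14 : ℝ) ≤ 2 * Real.pi)
      norm_num
    calc ((2 * Real.pi)⁻¹) ^ (1 / 4 : ℝ) ≤ ((632 / 1000 : ℝ) ^ (4 : ℝ)) ^ (1 / 4 : ℝ) := by gcongr
      _ = 632 / 1000 := by
        rw [← Real.rpow_mul (by norm_num)]
        norm_num
  have h2 : (100:ℝ) ≤ T ^ (1 / 4 : ℝ) := by
    calc (100:ℝ) = ((100:ℝ) ^ (4:ℝ)) ^ (1 / 4 : ℝ) := by
          rw [← Real.rpow_mul (by norm_num)]; norm_num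
      _ ≤ T ^ (1 / 4 : ℝ) := by
        apply Real.rpow_le_rpow (by positivity) _ (by norm_num)
        refine le_trans ?_ hT
        norm_num
  linarith

/-- **orders close to two** -/
theorem near (k T : ℝ) (hk : 2 ≤ k) (hT : 1000 ≤ T) (hk2 : k ≤ 2 + 7 / (5 * Real.log T)) :
    MM k T < T * Real.log T ^ (k ^ 2) := by
  rcases le_total T (5 * 10 ^ 12) with h | h
  · exact all_small norm2_true range2_true k T hk hT h
  have hT8 : 10 ^ 8 ≤ T := by linarith
  have hT0 : 0 < T := by linarith
  have hl := log_ge hT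
  have hl0 : 0 < Real.log T := by linarith
  have hgen := all_gen norm2_true k T hk hT8
  refine hgen.trans_lt ?_
  have hV0 : 0 < VV T := lt_of_lt_of_le one_pos (VV_ge hT0.le)
  set d := k - 2 with hd
  have hd0 : 0 ≤ d := by linarith
  have hdl : d * Real.log T ≤ 7 / 5 := by
    have h1 : d ≤ 7 / (5 * Real.log T) := by linarith
    calc d * Real.log T ≤ 7 / (5 * Real.log T) * Real.log T := by gcongr
      _ = 7 / 5 := by field_simp
  have hlV : Real.log (VV T) ≤ 1 / 4 * Real.log T + 11 / 10 := by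
    have h1 := Real.log_le_log hV0 (VV_le hT8)
    rw [Real.log_mul (by norm_num) (by positivity), Real.log_rpow hT0] at h1
    have h3 : Real.log 3 ≤ 11 / 10 := by
      exact log_le_of_pow 10 11 (by norm_num) (by norm_num) (by norm_num) (by norm_num)
    linarith
  have hll : 1 ≤ Real.log (Real.log T) := by
    rw [Real.le_log_iff_exp_le hl0]
    have := Real.exp_one_lt_d9
    linarith
  have e1 : VV T ^ (2 * k - 4) = Real.exp (Real.log (VV T) * (2 * d)) := by
    rw [Real.rpow_def_of_pos hV0]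
    congr 1
    rw [hd]; ring
  have e2 : Real.log T ^ (k ^ 2) = Real.log T ^ 4 * Real.exp (Real.log (Real.log T) * (d * (k + 2))) := by
    have : Real.log T ^ 4 = Real.log T ^ (4 : ℝ) := by norm_cast
    rw [this, ← Real.rpow_def_of_pos hl0, ← Real.rpow_add hl0]
    congr 1
    rw [hd]; ring
  rw [e1, e2]
  have h4799 : (4799 / 10000 : ℝ) < Real.exp (-(11 / 15)) := by
    have h1 := log_c
    have h2 : Real.log (12 / 25) ≤ -(11 / 15) := by linarith
    have h3 : Real.exp (Real.log (12 / 25)) ≤ Real.exp (-(11 / 15)) := Real.exp_le_exp.2 h2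
    rw [Real.exp_log (by norm_num)] at h3
    linarith
  have hmain : 4799 / 10000 * Real.exp (Real.log (VV T) * (2 * d)) <
      Real.exp (Real.log (Real.log T) * (d * (k + 2))) := by
    calc 4799 / 10000 * Real.exp (Real.log (VV T) * (2 * d))
        < Real.exp (-(11 / 15)) * Real.exp (Real.log (VV T) * (2 * d)) := by gcongr
      _ = Real.exp (-(11 / 15) + Real.log (VV T) * (2 * d)) := by rw [← Real.exp_add]
      _ ≤ Real.exp (Real.log (Real.log T) * (d * (k + 2))) := by
        apply Real.exp_le_exp.2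
        have h1 : Real.log (VV T) * (2 * d) ≤ (1 / 4 * Real.log T + 11 / 10) * (2 * d) := by gcongr
        have h2 : 1 * (d * 4) ≤ Real.log (Real.log T) * (d * (k + 2)) := by
          gcongr
          linarith
        nlinarith
  have hp : 0 < T * Real.log T ^ 4 := by positivity
  calc 4799 / 10000 * (T * Real.log T ^ 4 * Real.exp (Real.log (VV T) * (2 * d)))
      = (T * Real.log T ^ 4) * (4799 / 10000 * Real.exp (Real.log (VV T) * (2 * d))) := by ring
    _ < (T * Real.log T ^ 4) * Real.exp (Real.log (Real.log T) * (d * (k + 2))) :=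
        mul_lt_mul_of_pos_left hmain hp
    _ = _ := by ring

end

end Pool.Agent.Y959.Hm
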