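import Mathlib
import Pool.Agent.W22.EH.EX
import Pool.Agent.W903.EH.BK
import Pool.Agent.W347.EH.KT
import Pool.Agent.Y959.Hm.Large
import Pool.Agent.Y959.Hm.Near
import Pool.Agent.Y959.Hm.LipS

set_option autoImplicit false

/-!
# Unconditional range of large orders
-/

namespace Pool.Agent.Y959.Hm

open MeasureTheory Set Filter Topology Complex Pool.Agent.TH158.FM

noncomputable section

/-- the bound of Weyl, Hardy and Littlewood -/
theorem weyl (ε : ℝ) (hε : 0 < ε) : ∃ T0 : ℝ, ∀ t : ℝ, T0 ≤ t →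
    ‖riemannZeta (1 / 2 + t * I)‖ ≤ t ^ ((1 / 6 : ℝ) + ε) := by
  obtain ⟨T0, hT0⟩ := Pool.Agent.W22.EH.ex (Pool.Agent.W903.EH.bk Pool.Agent.W347.EH.kt)
    Pool.Agent.W903.EH.b1 ε hε
  exact ⟨T0, fun t ht => (hT0 t ht).1⟩

theorem MM_eq (k T : ℝ) : (∫ t in (0:ℝ)..T, ‖riemannZeta (1 / 2 + t * I)‖ ^ (2 * k)) = MM k T := by
  unfold MM
  congr 1
  funext t
  rw [pt_half]

/-- **large orders**: `k ≥ κ log T / log log T`, `κ > 1/3`, all `T ≥ 1000` -/
theorem large_range {κ : ℝ} (hκ : 1 / 3 < κ) : ∃ K : ℝ, ∀ k T : ℝ, K ≤ k → 1000 ≤ T →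
    κ * Real.log T / Real.log (Real.log T) ≤ k →
      ∫ t in (0:ℝ)..T, ‖riemannZeta (1 / 2 + t * I)‖ ^ (2 * k) ≤ T * Real.log T ^ (k ^ 2) := by
  obtain ⟨T0, hT0⟩ := frontier_of zeta_half_cont (fun t => norm_nonneg _)
    (by norm_num : (0:ℝ) ≤ 1 / 6) (by linarith : 2 * (1 / 6 : ℝ) < κ) weyl
  refine ⟨max 3 T0, fun k T hk hT hkT => ?_⟩
  rcases le_total T0 T with h | h
  · exact hT0 T h k hkT
  · have hk3 : 3 ≤ k := (le_max_left _ _).trans hk
    have hkT0 : T0 ≤ k := (le_max_right _ _).trans hk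
    have hlk : 1 ≤ Real.log k := by
      rw [Real.le_log_iff_exp_le (by linarith)]
      have := Real.exp_one_lt_d9
      linarith
    have h1 : k ≤ 2 * k * Real.log k := by nlinarith
    have h2 : 2 * k * Real.log k ≤ (2 * k * Real.log k) ^ (2 * k) := by
      have h3 : (2 * k * Real.log k) ^ (1:ℝ) ≤ (2 * k * Real.log k) ^ (2 * k) :=
        Real.rpow_le_rpow_of_exponent_le (by linarith) (by linarith)
      rwa [Real.rpow_one] at h3
    have h4 := all_region k T (by linarith) hT (by linarith)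
    rw [MM_eq]
    have h5 : 0 ≤ T * Real.log T ^ (k ^ 2) := by
      have := log_ge hT
      have h6 : 0 < T := by linarith
      positivity
    linarith

/-- `fourth_all` in the notation of the problem -/
theorem fourth_true (T : ℝ) (hT : 1000 ≤ T) :
    ∫ t in (0:ℝ)..T, ‖riemannZeta (1 / 2 + t * I)‖ ^ 4 ≤ 4 / 5 * (T * Real.log T ^ 4) := by
  have h := fourth_all T hT
  have e : (fun t : ℝ => ‖riemannZeta (pt (1 / 2) t)‖ ^ 4) =
      fun t : ℝ => ‖riemannZeta (1 / 2 + t * I)‖ ^ 4 := by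
    funext t
    rw [pt_half]
  rw [e] at h
  exact h

end

end Pool.Agent.Y959.Hm
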